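import Pool.Agent.R588.S.RO
import Pool.Agent.Helper669.KA2
import Pool.Agent.Helper669.KA3
import Pool.Agent.Helper669.KDelta

/-!
# Cohen conditions
-/

set_option autoImplicit false

namespace Pool.Agent.R588.S

open Cardinal Set Pool.Agent.Helper669.Forcing Pool.Agent.Helper669.K

/-- partial functions from `L` to `Bool` with fewer than `κ` values -/
@[ext] structure Co (κ : Cardinal.{0}) (L : Type) : Type where
  f : L → Option Bool
  small : #{l | f l ≠ none} < κ

variable {κ : Cardinal.{0}} {L : Type}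

instance : Preorder (Co κ L) where
  le p q := ∀ l b, q.f l = some b → p.f l = some b
  le_refl _ _ _ h := h
  le_trans _ _ _ h h' l b hb := h l b (h' l b hb)

theorem Co.le_def {p q : Co κ L} : p ≤ q ↔ ∀ l b, q.f l = some b → p.f l = some b := Iff.rfl

/-- the support -/
def Co.supp (p : Co κ L) : Set L := {l | p.f l ≠ none}

theorem Co.mem_supp {p : Co κ L} {l : L} : l ∈ p.supp ↔ ∃ b, p.f l = some b := by
  unfold Co.supp
  rw [Set.mem_ofPred_eq]
  exact Option.ne_none_iff_exists'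

theorem Co.not_mem_supp {p : Co κ L} {l : L} : l ∉ p.supp ↔ p.f l = none := by
  unfold Co.supp
  rw [Set.mem_ofPred_eq, not_not]

theorem Co.supp_mono {p q : Co κ L} (h : p ≤ q) : q.supp ⊆ p.supp := by
  intro l hl
  obtain ⟨b, hb⟩ := Co.mem_supp.1 hl
  exact Co.mem_supp.2 ⟨b, h l b hb⟩

theorem Co.eq_of_le {p q : Co κ L} (h : p ≤ q) {l : L} (hl : l ∈ q.supp) : p.f l = q.f l := by
  obtain ⟨b, hb⟩ := Co.mem_supp.1 hl
  rw [hb, h l b hb]

/-- build a condition from a partial function with small support -/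
def Co.mk' (g : L → Option Bool) (Z : Set L) (hZ : #Z < κ) (hg : ∀ l, g l ≠ none → l ∈ Z) :
    Co κ L :=
  ⟨g, (Cardinal.mk_le_mk_of_subset (fun l hl => hg l hl)).trans_lt hZ⟩

theorem union_lt (hκ : ℵ₀ ≤ κ) {X : Type} {A B : Set X} (hA : #A < κ) (hB : #B < κ) :
    #(A ∪ B : Set X) < κ :=
  (Cardinal.mk_union_le A B).trans_lt (Cardinal.add_lt_of_lt hκ hA hB)

/-- replace the values of `q` by those of `p` on `Z` -/
theorem exists_splice (hκ : ℵ₀ ≤ κ) (Z : Set L) (p q : Co κ L) : ∃ r : Co κ L,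
    (∀ l ∈ Z, r.f l = p.f l) ∧ ∀ l ∉ Z, r.f l = q.f l := by
  classical
  refine ⟨Co.mk' (fun l => if l ∈ Z then p.f l else q.f l) (p.supp ∪ q.supp)
    (union_lt hκ p.small q.small) ?_, ?_, ?_⟩
  · intro l hl
    by_cases h : l ∈ Z
    · rw [if_pos h] at hl
      exact Or.inl hl
    · rw [if_neg h] at hl
      exact Or.inr hl
  · intro l hl
    exact if_pos hl
  · intro l hl
    exact if_neg hl

/-- add the values of `g` where `p` has none -/
theorem exists_add (hκ : ℵ₀ ≤ κ) (p : Co κ L) (g : L → Option Bool) (Z : Set L) (hZ : #Z < κ)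
    (hg : ∀ l, g l ≠ none → l ∈ Z) : ∃ r : Co κ L, r ≤ p ∧ ∀ l, p.f l = none → r.f l = g l := by
  classical
  refine ⟨Co.mk' (fun l => if p.f l = none then g l else p.f l) (p.supp ∪ Z)
    (union_lt hκ p.small hZ) ?_, ?_, ?_⟩
  · intro l hl
    by_cases h : p.f l = none
    · rw [if_pos h] at hl
      exact Or.inr (hg l hl)
    · exact Or.inl h
  · intro l b hb
    change (if p.f l = none then g l else p.f l) = some b
    rw [if_neg (by rw [hb]; simp)]
    exact hb
  · intro l hl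
    exact if_pos hl

/-- the restriction of a condition -/
theorem exists_res (p : Co κ L) (Z : Set L) : ∃ r : Co κ L,
    (∀ l ∈ Z, r.f l = p.f l) ∧ ∀ l ∉ Z, r.f l = none := by
  classical
  refine ⟨Co.mk' (fun l => if l ∈ Z then p.f l else none) p.supp p.small ?_, ?_, ?_⟩
  · intro l hl
    by_cases h : l ∈ Z
    · rw [if_pos h] at hl
      exact hl
    · rw [if_neg h] at hl
      exact absurd rfl hl
  · intro l hl
    exact if_pos hl
  · intro l hl
    exact if_neg hl

/-- unions of directed families -/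
theorem exists_union (hκ : κ.IsRegular) (D : Set (Co κ L)) (hD : #D < κ)
    (hdir : ∀ a ∈ D, ∀ b ∈ D, ∃ c ∈ D, c ≤ a ∧ c ≤ b) :
    ∃ q : Co κ L, (∀ d ∈ D, q ≤ d) ∧ ∀ l ∈ q.supp, ∃ d ∈ D, l ∈ d.supp := by
  classical
  have hsmall : #(⋃ d ∈ D, d.supp : Set L) < κ := by
    rw [Cardinal.card_biUnion_lt_iff_forall_of_isRegular hκ hD]
    intro d _
    exact d.small
  let g : L → Option Bool := fun l =>
    if h : ∃ d ∈ D, l ∈ d.supp then h.choose.f l else none
  have hg : ∀ d ∈ D, ∀ l b, d.f l = some b → g l = some b := by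
    intro d hd l b hb
    have h : ∃ d ∈ D, l ∈ d.supp := ⟨d, hd, Co.mem_supp.2 ⟨b, hb⟩⟩
    simp only [g, dif_pos h]
    obtain ⟨c, -, h1, h2⟩ := hdir d hd _ h.choose_spec.1
    rw [← Co.eq_of_le h2 h.choose_spec.2, h1 l b hb]
  have hg2 : ∀ l, g l ≠ none → ∃ d ∈ D, l ∈ d.supp := by
    intro l hl
    by_contra hcon
    simp only [g, dif_neg hcon] at hl
    exact hl rfl
  refine ⟨Co.mk' g (⋃ d ∈ D, d.supp) hsmall ?_, fun d hd l b hb => hg d hd l b hb,
    fun l hl => hg2 l hl⟩
  intro l hl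
  obtain ⟨d, hd, hdl⟩ := hg2 l hl
  exact mem_biUnion hd hdl

theorem dirClosed_Co (hκ : κ.IsRegular) : DirClosed κ (Co κ L) := by
  intro D hD _ hdir
  obtain ⟨q, hq, -⟩ := exists_union hκ D hD hdir
  exact ⟨q, hq⟩

theorem cc_Co (hκ : κ.IsRegular) (h2 : ∀ μ < κ, 2 ^ μ < κ) (ι : Type) (f : ι → Co κ L)
    (hι : κ < #ι) : ∃ i j, i ≠ j ∧ ∃ r, r ≤ f i ∧ r ≤ f j := by
  classical
  have hκ0 := hκ.aleph0_le
  obtain ⟨i, j, hij, h⟩ := exists_agree (L := L) (Z := Bool) hκ h2
    (((lt_aleph0_of_finite Bool).le).trans hκ0) hι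
    (fun E K' Z' hE hZ => Pool.Agent.Helper669.KDelta.weak_delta hκ0 hE Z' hZ)
    (fun i => {x : L × Bool | (f i).f x.1 = some x.2}) (fun i => (f i).supp)
    (by
      intro i
      refine lt_of_le_of_lt ?_ (f i).small
      refine Cardinal.mk_le_of_injective (f := fun x : {x : L × Bool | (f i).f x.1 = some x.2} =>
        (⟨x.1.1, Co.mem_supp.2 ⟨x.1.2, x.2⟩⟩ : (f i).supp)) ?_
      rintro ⟨⟨a, b⟩, hx⟩ ⟨⟨c, d⟩, hy⟩ hxy
      have h1 : a = c := congrArg Subtype.val hxy
      subst h1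
      have hx' : (f i).f a = some b := hx
      have hy' : (f i).f a = some d := hy
      rw [hx'] at hy'
      have h3 : b = d := Option.some.inj hy'
      subst h3
      rfl)
    (fun i => (f i).small)
  refine ⟨i, j, hij, ?_⟩
  obtain ⟨r, hr1, hr2⟩ := exists_add hκ0 (f i) (f j).f (f j).supp (f j).small (fun l hl => hl)
  refine ⟨r, hr1, ?_⟩
  intro l b hb
  by_cases hl : l ∈ (f i).supp
  · have h1 := (h l hl (Co.mem_supp.2 ⟨b, hb⟩) b).2 hb
    exact hr1 l b h1
  · rw [hr2 l (Co.not_mem_supp.1 hl)]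
    exact hb

/-- the generic function has the value `b` at `l` -/
def bit (hκ : ℵ₀ ≤ κ) (l : L) (b : Bool) : RO (Co κ L) where
  c := {p | p.f l = some b}
  down := fun hp hq => hq l b hp
  reg := fun {p} h => by
    by_cases hl : l ∈ p.supp
    · obtain ⟨r, hr, hr'⟩ := h p le_rfl
      change r.f l = some b at hr'
      change p.f l = some b
      rw [← Co.eq_of_le hr hl]
      exact hr'
    · exfalso
      obtain ⟨r, hr1, hr2⟩ := exists_add hκ p
        (fun l' => open Classical in if l' = l then some (!b) else none) {l}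
        ((lt_aleph0_of_finite _).trans_le hκ) (by
          intro l' h'
          by_contra h''
          have h3 : ¬ l' = l := h''
          rw [if_neg h3] at h'
          exact h' rfl)
      obtain ⟨r', hr', h'⟩ := h r hr1
      change r'.f l = some b at h'
      have h1 := hr2 l (Co.not_mem_supp.1 hl)
      rw [if_pos rfl] at h1
      have h2 := hr' l _ h1
      rw [h'] at h2
      simp at h2

theorem mem_bit {hκ : ℵ₀ ≤ κ} {l : L} {b : Bool} {p : Co κ L} : p ∈ bit hκ l b ↔ p.f l = some b :=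
  Iff.rfl

/-- set the value at `l` -/
theorem exists_set (hκ : ℵ₀ ≤ κ) (p : Co κ L) (l : L) (hl : p.f l = none) (b : Bool) :
    ∃ r : Co κ L, r ≤ p ∧ r.f l = some b := by
  classical
  obtain ⟨r, hr1, hr2⟩ := exists_add hκ p
    (fun l' => if l' = l then some b else none) {l}
    ((lt_aleph0_of_finite _).trans_le hκ) (by
      intro l' h'
      by_contra h''
      have h3 : ¬ l' = l := h''
      rw [if_neg h3] at h'
      exact h' rfl)
  refine ⟨r, hr1, ?_⟩
  rw [hr2 l hl, if_pos rfl]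

/-- extend a condition to a given small set -/
theorem exists_dom (hκ : ℵ₀ ≤ κ) (p : Co κ L) (Z : Set L) (hZ : #Z < κ) :
    ∃ r : Co κ L, r ≤ p ∧ Z ⊆ r.supp := by
  classical
  obtain ⟨r, hr1, hr2⟩ := exists_add hκ p (fun l => if l ∈ Z then some true else none) Z hZ (by
      intro l' h'
      by_contra h''
      rw [if_neg h''] at h'
      exact h' rfl)
  refine ⟨r, hr1, fun l hl => ?_⟩
  by_cases h : l ∈ p.supp
  · exact Co.supp_mono hr1 h
  · rw [Co.mem_supp, hr2 l (Co.not_mem_supp.1 h), if_pos hl]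
    exact ⟨true, rfl⟩

end Pool.Agent.R588.S
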