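import Pool.Agent.R588.S.NF
import Pool.Agent.Helper669.KA1

/-!
# From the forcing language to regular truth values
-/

set_option autoImplicit false

namespace Pool.Agent.R588.S

open Cardinal Set Pool.Agent.Helper669.Forcing Pool.Agent.Helper669.K

variable {P : Type} [Preorder P] {κ : Cardinal.{0}} {X : Type}

theorem nCompl_c {Y : Type} (A : Y → RO P) :
    nCompl (fun x => (A x).c) = fun x => (neg (A x)).c := by
  funext x
  unfold nCompl
  rw [meets_c]
  rfl

/-- a uniform name for the ultrafilters -/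
theorem exists_NF (h : ∀ q : P, q ∈ fex fun U : (PK κ X → Set P) → Set P => IsNormalFine κ X U) :
    ∃ V : (PK κ X → RO P) → RO P, NF κ X V := by
  classical
  have hch : ∀ r : P, ∃ U : (PK κ X → Set P) → Set P,
      (∃ U : (PK κ X → Set P) → Set P, r ∈ IsNormalFine κ X U) → r ∈ IsNormalFine κ X U := by
    intro r
    by_cases h : ∃ U : (PK κ X → Set P) → Set P, r ∈ IsNormalFine κ X U
    · obtain ⟨U, hU⟩ := h
      exact ⟨U, fun _ => hU⟩
    · exact ⟨fun _ => ∅, fun h' => absurd h' h⟩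
  choose U hU using hch
  obtain ⟨F, hF⟩ := mix {r : P | ∃ U : (PK κ X → Set P) → Set P, r ∈ IsNormalFine κ X U}
    (fun r (A : PK κ X → RO P) => cl (U r fun x => (A x).c))
  have hF' : ∀ q : P, ∃ r ≤ q, ∃ W : (PK κ X → Set P) → Set P,
      (∀ u ≤ r, u ∈ IsNormalFine κ X W) ∧
      ∀ A : PK κ X → RO P, ∀ u ≤ r, (u ∈ F A ↔ u ∈ meets (W fun x => (A x).c)) := by
    intro q
    obtain ⟨r0, hr0, i, hi⟩ := mem_fex.1 (h q) q le_rfl
    obtain ⟨r, hr, a, haD, hra, hloc⟩ := hF q ⟨r0, hr0, i, hi⟩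
    refine ⟨r, hr, U a, fun u hu => ?_, fun A u hu => hloc A u hu⟩
    have hd : Down (IsNormalFine κ X (U a)) := by
      unfold IsNormalFine
      refine down_fand (down_fall fun _ => down_fall fun _ => down_fimp _ _) ?_
      refine down_fand (down_fall fun _ => down_fand (down_fimp _ _) (down_fimp _ _)) ?_
      refine down_fand (down_fall fun _ => down_fall fun _ => down_fall fun _ => down_fimp _ _) ?_
      refine down_fand (down_fall fun _ => down_meets _) ?_
      exact down_fall fun _ => down_fimp _ _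
    exact hd a (hU a haD) u (hu.trans hra)
  refine ⟨F, ⟨?_, ?_, ?_, ?_, ?_⟩⟩
  · intro p A B hA hAB
    refine RO.rg fun q hq => ?_
    obtain ⟨r, hr, W, hW, hloc⟩ := hF' q
    obtain ⟨r', hr', h1⟩ := mem_fimp.1 ((hW r le_rfl).1 (fun x => (A x).c) (fun x => (B x).c)) r
      le_rfl ⟨(hloc A r le_rfl).1 (RO.dn hA (hr.trans hq)), fun x => mem_fimp.2 fun u hu hu' =>
        ⟨u, le_rfl, by
          rw [meets_c] at hu' ⊢
          exact hAB u (hu.trans (hr.trans hq)) x hu'⟩⟩
    exact ⟨r', hr'.trans hr, (hloc B r' hr').2 h1⟩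
  · intro p A
    constructor
    · intro h1 q hq hqA
      obtain ⟨r, hr, W, hW, hloc⟩ := hF' q
      have h2 := (hloc _ r le_rfl).1 (RO.dn h1 (hr.trans hq))
      have h3 := (hloc A r le_rfl).1 (RO.dn hqA hr)
      obtain ⟨r', hr', h4⟩ := mem_fimp.1 ((hW r le_rfl).2.1 fun x => (A x).c).1 r le_rfl h3
      rw [nCompl_c] at h4
      exact h4 r' le_rfl (down_meets _ _ h2 _ hr')
    · intro h1
      refine RO.rg fun q hq => ?_
      obtain ⟨r, hr, W, hW, hloc⟩ := hF' q
      have h2 : r ∈ fnot (meets (W fun x => (A x).c)) := by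
        intro u hu hu'
        exact h1 u (hu.trans (hr.trans hq)) ((hloc A u hu).2 hu')
      obtain ⟨r', hr', h4⟩ := mem_fimp.1 ((hW r le_rfl).2.1 fun x => (A x).c).2 r le_rfl h2
      rw [nCompl_c] at h4
      exact ⟨r', hr'.trans hr, (hloc _ r' hr').2 h4⟩
  · intro J A p hJ hA
    refine RO.rg fun q hq => ?_
    obtain ⟨r, hr, W, hW, hloc⟩ := hF' q
    have e : (#J).out ≃ J := Cardinal.outMkEquiv
    obtain ⟨r', hr', h4⟩ := mem_fimp.1 ((hW r le_rfl).2.2.1 (#J) hJ fun i x => (A (e i) x).c) r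
      le_rfl (fun i => (hloc (A (e i)) r le_rfl).1 (RO.dn (hA (e i)) (hr.trans hq)))
    have h5 : nInter (fun (i : (#J).out) (x : PK κ X) => (A (e i) x).c) =
        fun x => (al fun j => A j x : RO P).c := by
      funext x
      ext u
      unfold nInter
      rw [mem_fall]
      simp_rw [meets_c]
      constructor
      · intro h6 j
        have h7 := h6 (e.symm j)
        rw [Equiv.apply_symm_apply] at h7
        exact h7
      · intro h6 i
        exact h6 (e i)
    rw [h5] at h4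
    exact ⟨r', hr'.trans hr, (hloc _ r' hr').2 h4⟩
  · intro a p
    refine RO.rg fun q _ => ?_
    obtain ⟨r, hr, W, hW, hloc⟩ := hF' q
    exact ⟨r, hr, (hloc _ r le_rfl).2 ((hW r le_rfl).2.2.2.1 a)⟩
  · intro A p hA
    refine RO.rg fun q hq => ?_
    obtain ⟨r, hr, W, hW, hloc⟩ := hF' q
    obtain ⟨r', hr', h4⟩ := mem_fimp.1 ((hW r le_rfl).2.2.2.2 fun a x => (A a x).c) r
      le_rfl (fun a => (hloc (A a) r le_rfl).1 (RO.dn (hA a) (hr.trans hq)))
    have h5 : (fun x : PK κ X => fall fun a => fall fun _ : a ∈ x.1 => meets ((A a x).c)) =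
        fun x => (al fun a : x.1 => A a.1 x : RO P).c := by
      funext x
      ext u
      simp_rw [meets_c]
      constructor
      · intro h6 a
        exact h6 a.1 a.2
      · intro h6 a ha
        exact h6 ⟨a, ha⟩
    rw [h5] at h4
    exact ⟨r', hr'.trans hr, (hloc _ r' hr').2 h4⟩

theorem regular_of_supercompact (h : IndestructiblySupercompact κ) :
    κ.IsRegular ∧ ∀ μ < κ, 2 ^ μ < κ := by
  classical
  obtain ⟨hκ, hQ⟩ := h
  have hK : #κ.ord.ToType = κ := Cardinal.mk_ord_toType κ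
  obtain ⟨V, hV⟩ := exists_NF (P := Unit) (κ := κ) (X := κ.ord.ToType)
    (hQ Unit (fun _ _ _ _ => ⟨(), fun _ _ => le_rfl⟩) _)
  have hk : ∀ x : PK κ κ.ord.ToType, ∃ k, k ∉ x.1 := by
    intro x
    by_contra hcon
    push Not at hcon
    have h1 : x.1 = Set.univ := Set.eq_univ_of_forall hcon
    have h2 := x.2
    rw [h1, Cardinal.mk_univ, hK] at h2
    exact lt_irrefl _ h2
  choose k hk using hk
  have hne : Nonempty κ.ord.ToType := by
    rw [← mk_ne_zero_iff, hK]
    exact (aleph0_pos.trans hκ).ne'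
  have hneg : ∀ (φ : RO Unit), () ∈ neg φ ↔ () ∉ φ := fun φ =>
    ⟨fun h => h () le_rfl, fun h q _ => h⟩
  refine J1_core hκ {A : Set κ.ord.ToType | () ∈ V fun x => gr (k x ∈ A)} ?_ ?_ ?_ ?_
  · intro A B hA hAB
    exact hV.gmono hA fun x hx => hAB hx
  · intro A
    have h1 := hV.ult () fun x => gr (k x ∈ A)
    have h2 : (fun x => neg (gr (k x ∈ A) : RO Unit)) = fun x => gr (k x ∈ Aᶜ) := by
      funext x
      apply RO.eq
      intro p
      exact ⟨fun h => h p le_rfl, fun h q _ => h⟩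
    rw [h2, hneg] at h1
    constructor
    · intro h3 h4
      exact h1.1 h4 h3
    · intro h3
      by_contra h4
      exact h3 (h1.2 h4)
  · intro ν hν Y hY
    refine hV.gmono (hV.ginter (J := ν.out) (by rw [Cardinal.mk_out]; exact hν)
      (A := fun j x => k x ∈ Y j) hY) fun x hx => ?_
    exact Set.mem_iInter.2 hx
  · intro a ha
    obtain ⟨q, _, x, hx⟩ := hV.proper (hV.gand hκ.le ha (hV.fine a ()))
    have h1 : k x ∈ ({a} : Set κ.ord.ToType) := hx.1
    have h2 : a ∈ x.1 := hx.2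
    rw [← Set.mem_singleton_iff.1 h1] at h2
    exact hk x h2

end Pool.Agent.R588.S
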