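import Pool.Agent.R588.S.PN

/-!
# The combinatorial core: splitting all named subsets of full size
-/

set_option autoImplicit false

namespace Pool.Agent.R588.S

open Cardinal Set Pool.Agent.Helper669.Forcing

variable {P : Type} [Preorder P] {K : Type} [LinearOrder K]

/-- For each named coherent system of equivalence relations on `N`, one for each stem, there is
a named coherent and generic system of subsets of the quotients. -/
def Task (U : (K → RO P) → RO P) (N : Type) : Prop :=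
  ∀ R : Finset K → N → N → RO P,
    (∀ t z p, p ∈ R t z z) → (∀ t z z' p, p ∈ R t z z' → p ∈ R t z' z) →
    (∀ t z z' z'' p, p ∈ R t z z' → p ∈ R t z' z'' → p ∈ R t z z'') →
    (∀ t z z' p, p ∈ neg (R t z z') → p ∈ U fun γ => neg (R (insert γ t) z z')) →
    ∃ b : Finset K → N → RO P,
      (∀ t z z' p, p ∈ R t z z' → p ∈ iv (b t z) (b t z')) ∧
      (∀ t z p, p ∈ U fun γ => iv (b (insert γ t) z) (b t z)) ∧
      ∀ (s : Finset K) (z : K → N) (p : P), (∀ ξ ξ', ξ ≠ ξ' → p ∈ neg (R s (z ξ) (z ξ'))) →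
        (∃ q ≤ p, ∃ ξ, q ∈ b s (z ξ)) ∧ ∃ q ≤ p, ∃ ξ, q ∈ neg (b s (z ξ))

/-- induction along a stem -/
theorem stem_ind {s c : Finset K} (hab : ∀ γ ∈ c, γ ∉ s → ∀ δ ∈ s, δ < γ)
    (Q : Finset K → Prop) (hs : Q s)
    (step : ∀ u γ, γ ∈ c → γ ∉ s → (∀ a ∈ u, a < γ) → Q u → Q (insert γ u)) :
    ∀ n, ∀ t : Finset K, s ⊆ t → t ⊆ c → (t \ s).card = n → Q t := by
  classical
  intro n
  induction n with
  | zero =>
    intro t hst _ hcard
    have h2 : t \ s = ∅ := Finset.card_eq_zero.1 hcard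
    have h3 : t = s := Finset.Subset.antisymm (Finset.sdiff_eq_empty_iff_subset.1 h2) hst
    rw [h3]
    exact hs
  | succ n ih =>
    intro t hst htc hcard
    have hne : (t \ s).Nonempty := by
      rw [← Finset.card_pos]
      omega
    obtain ⟨γ, hγ, hmax⟩ : ∃ γ ∈ t \ s, ∀ δ ∈ t \ s, δ ≤ γ :=
      ⟨(t \ s).max' hne, Finset.max'_mem _ _, fun δ hδ => Finset.le_max' _ _ hδ⟩
    rw [Finset.mem_sdiff] at hγ
    have h4 := hab γ (htc hγ.1) hγ.2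
    have h6 : ∀ a ∈ t.erase γ, a < γ := by
      intro a ha
      rw [Finset.mem_erase] at ha
      by_cases has : a ∈ s
      · exact h4 a has
      · exact lt_of_le_of_ne (hmax a (Finset.mem_sdiff.2 ⟨ha.2, has⟩)) ha.1
    have h7 := step (t.erase γ) γ (htc hγ.1) hγ.2 h6
    rw [Finset.insert_erase hγ.1] at h7
    refine h7 (ih (t.erase γ) ?_ ((Finset.erase_subset _ _).trans htc) ?_)
    · intro a ha
      rw [Finset.mem_erase]
      exact ⟨fun h => hγ.2 (h ▸ ha), hst ha⟩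
    · have h9 : t.erase γ \ s = (t \ s).erase γ := by
        ext a
        simp only [Finset.mem_sdiff, Finset.mem_erase]
        tauto
      rw [h9, Finset.card_erase_of_mem (Finset.mem_sdiff.2 hγ), hcard]
      rfl

theorem core {κ : Cardinal.{0}} (hκ : ℵ₀ ≤ κ) [Nonempty K] {U : (K → RO P) → RO P}
    (hU : Meas κ U) {N : Type} (hT : Task U N) (E : N → N → RO (PQ U))
    (hrefl : ∀ z q, q ∈ E z z) (hsymm : ∀ z z' q, q ∈ E z z' → q ∈ E z' z)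
    (htrans : ∀ z z' z'' q, q ∈ E z z' → q ∈ E z' z'' → q ∈ E z z'') (cst : K → N) :
    ∃ S : K → RO (PQ U), ∀ (q : PQ U) (z : K → N),
      (∀ ξ ξ', ξ ≠ ξ' → q ∈ neg (E (z ξ) (z ξ'))) →
      (∀ ξ, ∀ r ≤ q, ∃ r' ≤ r, ∃ y, r' ∈ E (z ξ) (cst y)) →
      (∃ r ≤ q, ∃ ξ y, r ∈ E (z ξ) (cst y) ∧ r ∈ S y) ∧
        ∃ r ≤ q, ∃ ξ y, r ∈ E (z ξ) (cst y) ∧ r ∈ neg (S y) := by
  classical
  obtain ⟨b, hb1, hb2, hb3⟩ := hT (fun t z z' => Ex (E z z') t)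
    (fun t z p q hq => ⟨q, le_rfl, fun _ => gr True, hU.of_forall fun _ _ _ => trivial,
      hrefl z _⟩)
    (fun t z z' p hp => Ex_mono (hsymm z z') hp)
    (fun t z z' z'' p hp hp' => Ex_mono (D := an (E z z') (E z' z''))
      (fun q hq => htrans z z' z'' q hq.1 hq.2) (Ex_and hκ hU hp hp'))
    (fun t z z' p hp => (hU.ult p _).2 fun q hq h => hp q hq (fusion hκ hU _ t q h))
  refine ⟨fun y => cl {q : PQ U | ∀ q' ≤ q, q'.p ∈ b q'.s (cst y)}, fun q z hz hz' => ?_⟩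
  -- the truth value stays the same
  have stay : ∀ (ξ : K) (p : P), p ≤ q.p → ∃ q' : PQ U, q' ≤ q ∧ q'.p = p ∧
      ∀ r ≤ q', r.p ∈ iv (b r.s (z ξ)) (b q.s (z ξ)) := by
    intro ξ p hp
    have h1 : p ∈ U fun γ => al fun t : {t : Finset K // ∀ a ∈ t, a < γ} =>
        iv (b (insert γ t.1) (z ξ)) (b t.1 (z ξ)) :=
      hU.diag (fun t γ => iv (b (insert γ t) (z ξ)) (b t (z ξ))) p fun t => hb2 t (z ξ) p
    refine ⟨⟨p, q.s, _, hU.and hκ (RO.dn q.h hp) h1⟩, ?_, rfl, ?_⟩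
    · exact ⟨hp, Finset.Subset.refl _, fun γ h h' => absurd h h', fun γ u _ hu => hu.1⟩
    · rintro r ⟨k1, k2, k3, -⟩
      refine stem_ind (s := q.s) (c := r.s) (fun γ hγ hγ' => (k3 γ hγ hγ').1)
        (fun t => r.p ∈ iv (b t (z ξ)) (b q.s (z ξ))) ?_ ?_ _ r.s k2 (Finset.Subset.refl _) rfl
      · exact mem_iv.2 fun u _ => Iff.rfl
      · intro u γ hγ hγ' hu ih
        have h2 := (k3 γ hγ hγ').2.2 ⟨u, hu⟩
        exact mem_iv.2 fun v hv => (mem_iv.1 h2 v hv).trans (mem_iv.1 ih v hv)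
  have same : ∀ (ξ y : K) (r : PQ U), r ∈ E (z ξ) (cst y) → ∀ r' ≤ r,
      r'.p ∈ iv (b r'.s (z ξ)) (b r'.s (cst y)) := fun ξ y r hr r' hr' =>
    hb1 _ _ _ _ (Ex_of_mem (RO.dn hr hr'))
  obtain ⟨h1, h2⟩ := hb3 q.s z q.p fun ξ ξ' hne u hu hu' => Ex_neg_false hκ hU (hz ξ ξ' hne) hu hu'
  constructor
  · obtain ⟨p, hp, ξ, hpb⟩ := h1
    obtain ⟨q', hq', hq'p, hst⟩ := stay ξ p hp
    obtain ⟨r, hr, y, hry⟩ := hz' ξ q' hq'
    refine ⟨r, hr.trans hq', ξ, y, hry, meets_of_mem fun r' hr' => ?_⟩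
    have h3 : r'.p ∈ b q.s (z ξ) := RO.dn hpb (hq'p ▸ (hr'.trans hr).1)
    have h4 := (mem_iv.1 (hst r' (hr'.trans hr)) r'.p le_rfl).2 h3
    exact (mem_iv.1 (same ξ y r hry r' hr') r'.p le_rfl).1 h4
  · obtain ⟨p, hp, ξ, hpb⟩ := h2
    obtain ⟨q', hq', hq'p, hst⟩ := stay ξ p hp
    obtain ⟨r, hr, y, hry⟩ := hz' ξ q' hq'
    refine ⟨r, hr.trans hq', ξ, y, hry, fun r0 hr0 h0 => ?_⟩
    obtain ⟨r', hr', s, hs, hr's⟩ := h0 r0 le_rfl
    have h5 : r' ≤ r := hr'.trans hr0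
    have h3 : r'.p ∈ neg (b q.s (z ξ)) := RO.dn hpb (hq'p ▸ (h5.trans hr).1)
    have h4 : r'.p ∈ b r'.s (cst y) := hs r' hr's
    have h6 := (mem_iv.1 (same ξ y r hry r' h5) r'.p le_rfl).2 h4
    exact h3 r'.p le_rfl ((mem_iv.1 (hst r' (h5.trans hr)) r'.p le_rfl).1 h6)

end Pool.Agent.R588.S
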