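import Pool.Agent.Helper669.KDefs

/-!
# Supercompact cardinals and ultrafilter numbers in the language of forcing: definitions
-/

set_option autoImplicit false

namespace Pool.Agent.R588.S

open Cardinal Pool.Agent.Helper669.Forcing Pool.Agent.Helper669.K

/-- the set of all subsets of `X` of size less than `κ` -/
abbrev PK (κ : Cardinal.{0}) (X : Type) : Type := {x : Set X // #x < κ}

section

variable {P : Type} [Preorder P]

/-- `U` names a normal fine `κ`-complete ultrafilter on the set `PK κ X` of all subsets of `X` of
size less than `κ`: it is closed under supersets, contains exactly one of each set and its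
complement, is closed under intersections of fewer than `κ` sets, contains each set
`{x | a ∈ x}`, and is closed under diagonal intersections `{x | x ∈ A a for all a ∈ x}`. -/
def IsNormalFine (κ : Cardinal.{0}) (X : Type) (U : (PK κ X → Set P) → Set P) : Set P :=
  fand
    (fall fun A => fall fun B =>
      fimp (fand (meets (U A)) (fall fun x => fimp (meets (A x)) (meets (B x)))) (meets (U B)))
    (fand
      (fall fun A => fand (fimp (meets (U A)) (fnot (meets (U (nCompl A)))))
        (fimp (fnot (meets (U A))) (meets (U (nCompl A)))))
      (fand
        (fall fun ν : Cardinal.{0} => fall fun _ : ν < κ => fall fun A : ν.out → PK κ X → Set P =>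
          fimp (fall fun i => meets (U (A i))) (meets (U (nInter A))))
        (fand (fall fun a : X => meets (U fun x => fground (a ∈ x.1)))
          (fall fun A : X → PK κ X → Set P =>
            fimp (fall fun a => meets (U (A a)))
              (meets (U fun x => fall fun a => fall fun _ : a ∈ x.1 => meets (A a x)))))))

/-- The named subset `A` of `X` is contained in the named subset `B`. -/
def SubN {X : Type} (A B : X → Set P) : Set P := fall fun a => fimp (meets (A a)) (meets (B a))

/-- `W` names a uniform ultrafilter on `K`: it is closed under supersets, contains exactly one of
each set and its complement, is closed under the intersection of two sets, and each set in it has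
the same cardinality as `K`. -/
def IsUniformUltrafilter {K : Type} (W : (K → Set P) → Set P) : Set P :=
  fand
    (fall fun A => fall fun B => fimp (fand (meets (W A)) (SubN A B)) (meets (W B)))
    (fand
      (fall fun A => fand (fimp (meets (W A)) (fnot (meets (W (nCompl A)))))
        (fimp (fnot (meets (W A))) (meets (W (nCompl A)))))
      (fand
        (fall fun A => fall fun B => fimp (fand (meets (W A)) (meets (W B)))
          (meets (W fun a => fand (meets (A a)) (meets (B a)))))
        (fall fun A => fimp (meets (W A)) (FullSize fun a => meets (A a)))))

/-- The named family `B i`, `i ∈ I`, is a base of the ultrafilter named by `W`: each `B i` belongs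
to it, and each set in it contains some `B i`. -/
def IsBase {K I : Type} (W : (K → Set P) → Set P) (B : I → K → Set P) : Set P :=
  fand (fall fun i => meets (W (B i)))
    (fall fun A => fimp (meets (W A)) (fex fun i => SubN (B i) A))

variable (P)

/-- `κ` is a strong limit cardinal in the extension: for no `ν < κ` are there `κ` many distinct
subsets of `ν`. -/
def StrongLimitN (κ : Cardinal.{0}) : Set P :=
  fall fun ν : Cardinal.{0} => fall fun _ : ν < κ =>
    fnot (fex fun X : κ.ord.ToType → ν.out → Set P =>
      fall fun α => fall fun β => fall fun _ : α ≠ β =>
        fnot (fand (SubN (X α) (X β)) (SubN (X β) (X α))))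

/-- `κ` has countable cofinality in the extension: some function from `ℕ` to `κ` is unbounded. -/
def CofOmegaN (κ : Cardinal.{0}) : Set P :=
  fex fun R : ℕ → κ.ord.ToType → Set P => fand (IsFun R)
    (fall fun b => fex fun n => fex fun y => fand (fground (b < y)) (meets (R n y)))

/-- In the extension no uniform ultrafilter on `K` has a base indexed by `I`. -/
def UltrafilterNumberGt (K I : Type) : Set P :=
  fnot (fex fun W : (K → Set P) → Set P => fand (IsUniformUltrafilter W)
    (fex fun B : I → K → Set P => IsBase W B))

end

/-- `κ` is an uncountable cardinal which is supercompact in every generic extension by a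
`κ`-directed closed forcing notion `Q`: in the extension, there is a normal fine `κ`-complete
ultrafilter on the set of all subsets of `X` of size less than `κ`, for every `X` in the ground
model. (`Q` adds no new subsets of `X` of size less than `κ`. Laver proved that every supercompact
cardinal has this property in some generic extension.) -/
def IndestructiblySupercompact (κ : Cardinal.{0}) : Prop :=
  ℵ₀ < κ ∧ ∀ (Q : Type) [Preorder Q], DirClosed κ Q → ∀ X : Type,
    ∀ q : Q, q ∈ fex fun U : (PK κ X → Set Q) → Set Q => IsNormalFine κ X U

end Pool.Agent.R588.S
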