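import Pool.Agent.R588.S.Core
import Pool.Agent.R588.S.Defs
import Pool.Agent.Helper669.KA2

/-!
# Cardinals in the Prikry extension
-/

set_option autoImplicit false

namespace Pool.Agent.R588.S

open Cardinal Set Pool.Agent.Helper669.Forcing Pool.Agent.Helper669.K

variable {P : Type} [Preorder P] {K : Type} [LinearOrder K] {U : (K → RO P) → RO P}
  {κ : Cardinal.{0}}

/-- deciding few sentences without changing the stem -/
theorem decide_few (hκ : ℵ₀ ≤ κ) [Nonempty K] (hU : Meas κ U)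
    (hdist : ∀ (J : Type) (D : J → Set P), #J < κ → (∀ j, Down (D j)) →
      (∀ j q, ∃ q' ≤ q, q' ∈ D j) → ∀ q, ∃ q' ≤ q, ∀ j, q' ∈ D j)
    {J : Type} (hJ : #J < κ) (D : J → RO (PQ U)) (q : PQ U) :
    ∃ q' ≤ q, q'.s = q.s ∧ ∀ j, q' ∈ D j ∨ q' ∈ neg (D j) := by
  classical
  obtain ⟨r, hr, hrd⟩ := hdist J (fun j => {r : P | ∃ A, ∃ h : r ∈ U A,
      (⟨r, q.s, A, h⟩ : PQ U) ∈ D j ∨ (⟨r, q.s, A, h⟩ : PQ U) ∈ neg (D j)}) hJ
    (by
      rintro j p ⟨A, hA, h⟩ p' hp'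
      refine ⟨A, RO.dn hA hp', ?_⟩
      have h1 : (⟨p', q.s, A, RO.dn hA hp'⟩ : PQ U) ≤ ⟨p, q.s, A, hA⟩ :=
        ⟨hp', Finset.Subset.refl _, fun γ h h' => absurd h h', fun γ u _ hu => hu⟩
      rcases h with h | h
      · exact Or.inl (RO.dn h h1)
      · exact Or.inr (RO.dn h h1))
    (by
      intro j p
      obtain ⟨p', hp', h | h⟩ := em (Ex (D j) q.s) p
      · obtain ⟨r, hr, A, hA, h1⟩ := h p' le_rfl
        exact ⟨r, hr.trans hp', A, hA, Or.inl h1⟩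
      · obtain ⟨A, hA, h1⟩ := prikry hκ hU (D j) q.s
        exact ⟨p', hp', A, hA p', Or.inr (h1 p' (hA p') h)⟩) q.p
  choose A hA hAD using hrd
  refine ⟨⟨r, q.s, fun γ => an (q.A γ) (al fun j => A j γ),
    hU.and hκ (RO.dn q.h hr) (hU.inter J A r hJ hA)⟩, ?_, rfl, fun j => ?_⟩
  · exact ⟨hr, Finset.Subset.refl _, fun γ h h' => absurd h h', fun γ u _ hu => hu.1⟩
  · have h1 : (⟨r, q.s, fun γ => an (q.A γ) (al fun j => A j γ),
        hU.and hκ (RO.dn q.h hr) (hU.inter J A r hJ hA)⟩ : PQ U) ≤ ⟨r, q.s, A j, hA j⟩ :=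
      ⟨le_rfl, Finset.Subset.refl _, fun γ h h' => absurd h h', fun γ u _ hu => hu.2 j⟩
    rcases hAD j with h | h
    · exact Or.inl (RO.dn h h1)
    · exact Or.inr (RO.dn h h1)

/-- few conditions are pairwise incompatible -/
theorem cc_PQ (hκ : ℵ₀ ≤ κ) (hK : #K = κ) (hU : Meas κ U)
    (hcc : ∀ (ι : Type) (f : ι → P), κ < #ι → ∃ i j, i ≠ j ∧ ∃ r, r ≤ f i ∧ r ≤ f j)
    (ι : Type) (f : ι → PQ U) (hι : κ < #ι) : ∃ i j, i ≠ j ∧ ∃ r, r ≤ f i ∧ r ≤ f j := by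
  classical
  have hT : #(Finset K) ≤ κ := by
    have : Infinite K := by
      rw [Cardinal.infinite_iff, hK]
      exact hκ
    rw [Cardinal.mk_finset_of_infinite, hK]
  -- a stem occurring often
  obtain ⟨s, hs⟩ : ∃ s : Finset K, κ < #{i : ι // (f i).s = s} := by
    by_contra hcon
    push Not at hcon
    have h1 : #ι ≤ κ := by
      have h2 : #ι = #(Σ s : Finset K, {i : ι // (f i).s = s}) :=
        (Cardinal.mk_congr (Equiv.sigmaFiberEquiv fun i => (f i).s)).symm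
      rw [h2, Cardinal.mk_sigma]
      refine (Cardinal.sum_le_mk_mul_iSup _).trans ?_
      calc #(Finset K) * (⨆ s : Finset K, #{i : ι // (f i).s = s}) ≤ κ * κ :=
            mul_le_mul' hT (ciSup_le' hcon)
        _ = κ := Cardinal.mul_eq_self hκ
    exact absurd hι (not_lt.2 h1)
  obtain ⟨i, j, hij, r, hri, hrj⟩ := hcc _ (fun i : {i : ι // (f i).s = s} => (f i.1).p) hs
  refine ⟨i.1, j.1, fun h => hij (Subtype.ext h), ⟨r, s, fun γ => an ((f i.1).A γ) ((f j.1).A γ),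
    hU.and hκ (RO.dn (f i.1).h hri) (RO.dn (f j.1).h hrj)⟩, ?_, ?_⟩
  · refine ⟨hri, ?_, ?_, fun γ u _ hu => hu.1⟩
    · rw [i.2]
    · intro γ hγ hγ'
      rw [i.2] at hγ'
      exact absurd hγ hγ'
  · refine ⟨hrj, ?_, ?_, fun γ u _ hu => hu.2⟩
    · rw [j.2]
    · intro γ hγ hγ'
      rw [j.2] at hγ'
      exact absurd hγ hγ'

theorem exists_nth (t : Finset K) : ∀ n, n < t.card → ∃ γ ∈ t, (t.filter (· < γ)).card = n := by
  induction t using Finset.induction_on_max with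
  | empty =>
    intro n hn
    simp at hn
  | insert a t ha ih =>
    intro n hn
    have hat : a ∉ t := fun h => lt_irrefl _ (ha a h)
    rw [Finset.card_insert_of_notMem hat] at hn
    rcases Nat.lt_succ_iff_lt_or_eq.1 hn with h | h
    · obtain ⟨γ, hγ, h1⟩ := ih n h
      refine ⟨γ, Finset.mem_insert_of_mem hγ, ?_⟩
      rw [Finset.filter_insert, if_neg (not_lt.2 (ha γ hγ).le)]
      exact h1
    · refine ⟨a, Finset.mem_insert_self _ _, ?_⟩
      rw [Finset.filter_insert, if_neg (lt_irrefl a), Finset.filter_true_of_mem ha]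
      exact h.symm

/-- the `n`-th point of the generic sequence -/
def genR (U : (K → RO P) → RO P) (n : ℕ) (γ : K) : Set (PQ U) :=
  {q | γ ∈ q.s ∧ (q.s.filter (· < γ)).card = n}

theorem genR_down {n : ℕ} {γ : K} : ∀ q ∈ genR U n γ, ∀ r ≤ q, r ∈ genR U n γ := by
  rintro q ⟨h1, h2⟩ r ⟨-, k2, k3, -⟩
  refine ⟨k2 h1, ?_⟩
  rw [← h2]
  congr 1
  ext a
  simp only [Finset.mem_filter]
  constructor
  · rintro ⟨h3, h4⟩
    refine ⟨?_, h4⟩
    by_contra h5
    exact absurd ((k3 a h3 h5).1 γ h1) (not_lt.2 h4.le)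
  · rintro ⟨h3, h4⟩
    exact ⟨k2 h3, h4⟩

theorem isFun_genR (hκ : ℵ₀ ≤ κ) [Nonempty K] (hU : Meas κ U) (q : PQ U) :
    q ∈ IsFun (genR U) := by
  constructor
  · intro n
    rw [mem_fex]
    intro q1 _
    have key : ∀ m : ℕ, ∃ q2 ≤ q1, m ≤ q2.s.card := by
      intro m
      induction m with
      | zero => exact ⟨q1, le_rfl, Nat.zero_le _⟩
      | succ m ih =>
        obtain ⟨q2, hq2, hm⟩ := ih
        obtain ⟨q3, hq3, γ, -, h1, h2⟩ := exists_step hκ hU q2 (Classical.arbitrary K)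
        refine ⟨q3, hq3.trans hq2, ?_⟩
        rw [h2, Finset.card_insert_of_notMem fun h => lt_irrefl _ (h1 γ h)]
        omega
    obtain ⟨q2, hq2, hm⟩ := key (n + 1)
    obtain ⟨γ, hγ, h1⟩ := exists_nth q2.s n (by omega)
    exact ⟨q2, hq2, γ, meets_of_mem ⟨hγ, h1⟩⟩
  · intro n γ γ'
    rw [mem_fimp]
    rintro r _ ⟨h1, h2⟩
    obtain ⟨r1, hr1, s1, hs1, hle1⟩ := h1 r le_rfl
    obtain ⟨r2, hr2, s2, hs2, hle2⟩ := h2 r1 hr1
    obtain ⟨h3, h4⟩ := genR_down _ hs1 _ (hr2.trans hle1)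
    obtain ⟨h5, h6⟩ := genR_down _ hs2 _ hle2
    refine ⟨r2, hr2.trans hr1, ?_⟩
    change γ = γ'
    have aux : ∀ a b : K, a ∈ r2.s → a < b →
        (r2.s.filter (· < a)).card < (r2.s.filter (· < b)).card := by
      intro a b ha hab
      apply Finset.card_lt_card
      rw [Finset.ssubset_iff_of_subset]
      · exact ⟨a, Finset.mem_filter.2 ⟨ha, hab⟩, fun h => lt_irrefl _ (Finset.mem_filter.1 h).2⟩
      · intro c hc
        rw [Finset.mem_filter] at hc ⊢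
        exact ⟨hc.1, hc.2.trans hab⟩
    rcases lt_trichotomy γ γ' with h | h | h
    · have := aux γ γ' h3 h
      omega
    · exact h
    · have := aux γ' γ h5 h
      omega

theorem cofinal_genR (hκ : ℵ₀ ≤ κ) [Nonempty K] (hU : Meas κ U) (q : PQ U) (b : K) :
    q ∈ fex fun n => fex fun y => fand (fground (b < y)) (meets (genR U n y)) := by
  rw [mem_fex]
  intro q1 _
  obtain ⟨q2, hq2, γ, h0, -, h2⟩ := exists_step hκ hU q1 b
  refine ⟨q2, hq2, (q2.s.filter (· < γ)).card, ?_⟩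
  refine mem_fex_of_mem γ (down_fand (down_fground _) (down_meets _)) ⟨h0, meets_of_mem ⟨?_, rfl⟩⟩
  rw [h2]
  exact Finset.mem_insert_self _ _

end Pool.Agent.R588.S

namespace Pool.Agent.R588.S

open Cardinal Set Pool.Agent.Helper669.Forcing Pool.Agent.Helper669.K

variable {P : Type} [Preorder P] {κ : Cardinal.{0}}
  {U : (κ.ord.ToType → RO P) → RO P}

theorem down_SubN {P : Type} [Preorder P] {X : Type} (A B : X → Set P) : Down (SubN A B) :=
  down_fall fun _ => down_fimp _ _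

theorem strongLimit_PQ (hκ : κ.IsRegular) (h2 : ∀ μ < κ, 2 ^ μ < κ) [Nonempty κ.ord.ToType]
    (hU : Meas κ U)
    (hdist : ∀ (J : Type) (D : J → Set P), #J < κ → (∀ j, Down (D j)) →
      (∀ j q, ∃ q' ≤ q, q' ∈ D j) → ∀ q, ∃ q' ≤ q, ∀ j, q' ∈ D j) (q : PQ U) :
    q ∈ StrongLimitN (PQ U) κ := by
  classical
  intro ν hν q1 _ hq1
  obtain ⟨q2, hq2, X, hX⟩ := mem_fex.1 hq1 q1 le_rfl
  have hκ0 := hκ.aleph0_le
  let Λ : Type := Set (Set ν.out)
  have hΛ : #Λ < κ := by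
    change #(Set (Set ν.out)) < κ
    rw [mk_set, mk_set, mk_out]
    exact h2 _ (h2 _ hν)
  obtain ⟨ι⟩ : Nonempty (Λ ↪ κ.ord.ToType) := by
    rw [← Cardinal.le_def, Cardinal.mk_ord_toType]
    exact hΛ.le
  have hJ : #(Λ × ν.out) < κ := by
    rw [mk_prod, lift_id, lift_id, mk_out]
    exact mul_lt_of_lt hκ0 hΛ hν
  obtain ⟨q3, hq3, -, hd⟩ := decide_few hκ0 hU hdist hJ (fun x => cl (X (ι x.1) x.2)) q2
  have hninj : ¬ Function.Injective fun α : Λ => {i : ν.out | q3 ∈ cl (X (ι α) i)} := by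
    intro hinj
    have h3 : #Λ ≤ #(Set ν.out) := Cardinal.mk_le_of_injective hinj
    have h4 : #Λ = 2 ^ #(Set ν.out) := by
      change #(Set (Set ν.out)) = _
      rw [mk_set]
    rw [h4] at h3
    exact absurd h3 (not_le.2 (Cardinal.cantor _))
  unfold Function.Injective at hninj
  push Not at hninj
  obtain ⟨α, β, heq, hne⟩ := hninj
  have h5 := hX (ι α) (ι β) (fun h => hne (ι.injective h))
  have aux : ∀ a b : Λ, {i : ν.out | q3 ∈ cl (X (ι a) i)} = {i : ν.out | q3 ∈ cl (X (ι b) i)} →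
      q3 ∈ SubN (X (ι a)) (X (ι b)) := by
    intro a b hab i
    rw [mem_fimp]
    intro q4 hq4 h6
    refine ⟨q4, le_rfl, ?_⟩
    have h7 : q3 ∈ cl (X (ι a) i) := by
      rcases hd (a, i) with h8 | h8
      · exact h8
      · exact absurd h6 (h8 q4 hq4)
    have h9 : i ∈ {i : ν.out | q3 ∈ cl (X (ι b) i)} := by
      rw [← hab]
      exact h7
    have h10 : q3 ∈ cl (X (ι b) i) := h9
    exact RO.dn h10 hq4
  exact h5 q3 hq3 ⟨aux α β heq, aux β α heq.symm⟩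

theorem cofOmega_PQ (hκ : ℵ₀ ≤ κ) [Nonempty κ.ord.ToType] (hU : Meas κ U) (q : PQ U) :
    q ∈ CofOmegaN (PQ U) κ := by
  refine mem_fex_of_mem (genR U) (down_fand (down_IsFun _) (down_fall fun _ => down_fex _)) ?_
  exact ⟨isFun_genR hκ hU q, fun b => cofinal_genR hκ hU q b⟩

end Pool.Agent.R588.S
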