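import Pool.Agent.R588.S.TP

/-!
# A universal system of named functions
-/

set_option autoImplicit false

namespace Pool.Agent.R588.S

open Cardinal Set Pool.Agent.Helper669.Forcing Pool.Agent.Helper669.K

/-- enumeration of small names -/
theorem enum_names {κ ν : Cardinal.{0}} (hκ : ℵ₀ ≤ κ) (hκν : κ ≤ ν) (T N M : Type)
    (hT : #T ≤ ν) (hN : #N ≤ ν) (hM : #M = Order.succ ν) :
    ∃ e : Set M → T → N → N → Set (Co κ ((M × Set M) × T × N)),
      ∀ c : T → N → N → Set (Co κ ((M × Set M) × T × N)), (∀ t z w, #(c t z w) ≤ κ) →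
        ∃ η, e η = c := by
  classical
  have hν0 : ℵ₀ ≤ ν := hκ.trans hκν
  set θ : Cardinal.{0} := 2 ^ Order.succ ν with hθ
  have hsθ : Order.succ ν ≤ θ := (cantor _).le
  have hνθ : ν ≤ θ := (Order.le_succ ν).trans hsθ
  have hθ0 : ℵ₀ ≤ θ := hν0.trans hνθ
  have hθne : θ ≠ 0 := (lt_of_lt_of_le aleph0_pos hθ0).ne'
  have hν1 : ν ≠ 0 := (lt_of_lt_of_le aleph0_pos hν0).ne'
  have hs0 : ℵ₀ ≤ Order.succ ν := hν0.trans (Order.le_succ ν)
  have hθν : θ ^ ν = θ := by
    rw [hθ, ← power_mul, mul_eq_left hs0 (Order.le_succ ν) hν1]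
  have hθκ : θ ^ κ ≤ θ := by
    calc θ ^ κ ≤ θ ^ ν := power_le_power_left hθne hκν
      _ = θ := hθν
  have hθθ : θ * θ = θ := mul_eq_self hθ0
  have hSM : #(Set M) = θ := by rw [mk_set, hM]
  have hbd : ∀ α : Type, #α ≤ θ → #{t : Set α // #t ≤ κ} ≤ θ := by
    intro α hα
    calc #{t : Set α // #t ≤ κ} ≤ max #α ℵ₀ ^ κ := mk_bounded_set_le α κ
      _ ≤ θ ^ κ := power_le_power_right (max_le hα hθ0)
      _ ≤ θ := hθκ
  have hprod : ∀ α β : Type, #α ≤ θ → #β ≤ θ → #(α × β) ≤ θ := by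
    intro α β hα hβ
    rw [mk_prod, lift_id, lift_id]
    calc #α * #β ≤ θ * θ := mul_le_mul' hα hβ
      _ = θ := hθθ
  have hMθ : #M ≤ θ := hM.le.trans hsθ
  have hL : #((M × Set M) × T × N) ≤ θ :=
    hprod _ _ (hprod _ _ hMθ hSM.le) (hprod _ _ (hT.trans hνθ) (hN.trans hνθ))
  have hB : #Bool ≤ θ := ((lt_aleph0_of_finite Bool).le).trans hθ0
  have hC : #(Co κ ((M × Set M) × T × N)) ≤ θ := by
    have hsm : ∀ p : Co κ ((M × Set M) × T × N),
        #{x : ((M × Set M) × T × N) × Bool | p.f x.1 = some x.2} ≤ κ := by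
      intro p
      refine le_trans ?_ p.small.le
      refine Cardinal.mk_le_of_injective
        (f := fun x : {x : ((M × Set M) × T × N) × Bool | p.f x.1 = some x.2} =>
        (⟨x.1.1, Co.mem_supp.2 ⟨x.1.2, x.2⟩⟩ : p.supp)) ?_
      rintro ⟨⟨a, b⟩, hx⟩ ⟨⟨c, d⟩, hy⟩ hxy
      have h1 : a = c := congrArg Subtype.val hxy
      subst h1
      have hx' : p.f a = some b := hx
      have hy' : p.f a = some d := hy
      rw [hx'] at hy'
      have h3 : b = d := Option.some.inj hy'
      subst h3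
      rfl
    refine le_trans ?_ (hbd _ (hprod _ _ hL hB))
    refine Cardinal.mk_le_of_injective
      (f := fun p : Co κ ((M × Set M) × T × N) =>
        (⟨{x : ((M × Set M) × T × N) × Bool | p.f x.1 = some x.2}, hsm p⟩ :
          {t : Set (((M × Set M) × T × N) × Bool) // #t ≤ κ})) ?_
    intro p q hpq
    have h1 : {x : ((M × Set M) × T × N) × Bool | p.f x.1 = some x.2} =
        {x : ((M × Set M) × T × N) × Bool | q.f x.1 = some x.2} := congrArg Subtype.val hpq
    apply Co.ext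
    funext l
    apply Option.ext
    intro b
    have h2 := Set.ext_iff.1 h1 (l, b)
    exact h2
  let S : Set (T → N → N → Set (Co κ ((M × Set M) × T × N))) := {c | ∀ t z w, #(c t z w) ≤ κ}
  have hS : #S ≤ #(Set M) := by
    rw [hSM]
    have hinj : Function.Injective (fun c : S =>
        ((fun x : T × N × N => ⟨c.1 x.1 x.2.1 x.2.2, c.2 x.1 x.2.1 x.2.2⟩) :
          T × N × N → {t : Set (Co κ ((M × Set M) × T × N)) // #t ≤ κ})) := by
      intro a b hab
      apply Subtype.ext
      funext t z w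
      have := congrFun hab (t, z, w)
      simpa using this
    have hTNN : #(T × N × N) ≤ ν := by
      simp only [mk_prod, lift_id]
      calc #T * (#N * #N) ≤ ν * (ν * ν) := mul_le_mul' hT (mul_le_mul' hN hN)
        _ = ν := by rw [mul_eq_self hν0, mul_eq_self hν0]
    calc #S ≤ #(T × N × N → {t : Set (Co κ ((M × Set M) × T × N)) // #t ≤ κ}) :=
          mk_le_of_injective hinj
      _ = #{t : Set (Co κ ((M × Set M) × T × N)) // #t ≤ κ} ^ #(T × N × N) := by
          rw [mk_pi]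
          simp
      _ ≤ θ ^ #(T × N × N) := power_le_power_right (hbd _ hC)
      _ ≤ θ ^ ν := power_le_power_left hθne hTNN
      _ = θ := hθν
  haveI : Nonempty S := ⟨⟨fun _ _ _ => ∅, fun _ _ _ => by simp⟩⟩
  obtain ⟨f⟩ := hS
  refine ⟨fun η => (Function.invFun f η : S), fun c hc => ⟨f ⟨c, hc⟩, ?_⟩⟩
  have h := Function.leftInverse_invFun f.injective (⟨c, hc⟩ : S)
  exact congrArg Subtype.val h

section

variable {κ : Cardinal.{0}} {L M : Type} [LT M]

/-- the truth value depends only on the coordinates of rank below `β` -/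
def Inv (r : L → M) (β : M) (φ : RO (Co κ L)) : Prop :=
  ∀ p p' : Co κ L, (∀ l, r l < β → p'.f l = p.f l) → p ∈ φ → p' ∈ φ

theorem inv_gr {r : L → M} {β : M} (h : Prop) : Inv r β (gr h : RO (Co κ L)) := fun _ _ _ h => h

theorem inv_neg (hκ : ℵ₀ ≤ κ) {r : L → M} {β : M} {φ : RO (Co κ L)} (h : Inv r β φ) :
    Inv r β (neg φ) := by
  intro p p' hpp hp q' hq' hq'φ
  obtain ⟨q, hq1, hq2⟩ := exists_splice hκ {l : L | r l < β} q' p
  have hqp : q ≤ p := by
    intro l b hb
    by_cases hl : r l < β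
    · rw [hq1 l hl]
      apply hq'
      rw [hpp l hl]
      exact hb
    · rw [hq2 l hl]
      exact hb
  exact hp q hqp (h q' q (fun l hl => hq1 l hl) hq'φ)

theorem inv_al {r : L → M} {β : M} {ι : Type} {φ : ι → RO (Co κ L)} (h : ∀ i, Inv r β (φ i)) :
    Inv r β (al φ) := fun p p' hpp hp i => h i p p' hpp (hp i)

theorem inv_an {r : L → M} {β : M} {φ ψ : RO (Co κ L)} (h : Inv r β φ) (h' : Inv r β ψ) :
    Inv r β (an φ ψ) := fun p p' hpp hp => ⟨h p p' hpp hp.1, h' p p' hpp hp.2⟩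

theorem inv_cl (hκ : ℵ₀ ≤ κ) {r : L → M} {β : M} {A : Set (Co κ L)}
    (h : ∀ s ∈ A, ∀ l ∈ s.supp, r l < β) : Inv r β (cl A) := by
  intro p p' hpp hp q' hq'
  obtain ⟨q, hq1, hq2⟩ := exists_splice hκ {l : L | r l < β} q' p
  have hqp : q ≤ p := by
    intro l b hb
    by_cases hl : r l < β
    · rw [hq1 l hl]
      apply hq'
      rw [hpp l hl]
      exact hb
    · rw [hq2 l hl]
      exact hb
  obtain ⟨u, hu, s, hs, hus⟩ := hp q hqp
  obtain ⟨u', hu1, hu2⟩ := exists_splice hκ {l : L | r l < β} u q'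
  refine ⟨u', ?_, s, hs, ?_⟩
  · intro l b hb
    by_cases hl : r l < β
    · rw [hu1 l hl]
      apply hu
      rw [hq1 l hl]
      exact hb
    · rw [hu2 l hl]
      exact hb
  · intro l b hb
    rw [hu1 l (h s hs l (Co.mem_supp.2 ⟨b, hb⟩))]
    exact hus l b hb

end

theorem exists_sys {κ ν : Cardinal.{0}} (hκ : κ.IsRegular) (h2 : ∀ μ < κ, 2 ^ μ < κ)
    (hκν : κ ≤ ν) (K N : Type) [LinearOrder N] [WellFoundedLT N] (hT : #(Finset K) ≤ ν)
    (hN : #N ≤ ν) :
    ∃ (C M : Type) (_ : LinearOrder M) (_ : WellFoundedLT M) (rk : C → M)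
      (st : C → Finset K → N → N → RO (Co κ (C × Finset K × N))), StSys rk st ∧
      ∀ R : Finset K → N → N → RO (Co κ (C × Finset K × N)), (∀ t z p, p ∈ R t z z) →
        ∃ c, ∀ t z w, st c t z w = lst (R t z) w := by
  classical
  have hκ0 := hκ.aleph0_le
  have hν0 : ℵ₀ ≤ ν := hκ0.trans hκν
  let M : Type := (Order.succ ν).ord.ToType
  have hM : #M = Order.succ ν := Cardinal.mk_ord_toType _
  obtain ⟨e, he⟩ := enum_names hκ0 hκν (Finset K) N M hT hN hM
  let r : (M × Set M) × Finset K × N → M := fun l => l.1.1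
  let Valid : M × Set M → Prop := fun c => ∀ t z w, ∀ s ∈ e c.2 t z w, ∀ l ∈ s.supp, r l < c.1
  let E0 : M × Set M → Finset K → N → N → RO (Co κ ((M × Set M) × Finset K × N)) :=
    fun c t z w => if w = z then gr True else cl (e c.2 t z w)
  let st : M × Set M → Finset K → N → N → RO (Co κ ((M × Set M) × Finset K × N)) :=
    fun c t z w => if Valid c then lst (E0 c t z) w else gr (w = z)
  refine ⟨M × Set M, M, inferInstance, inferInstance, fun c => c.1, st, ⟨?_, ?_, ?_⟩, ?_⟩
  · intro c t z p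
    by_cases hc : Valid c
    · simp only [st, if_pos hc]
      refine lst_total (fun p => ⟨p, le_rfl, z, ?_⟩) p
      simp only [E0, if_pos]
      trivial
    · simp only [st, if_neg hc]
      exact ⟨p, le_rfl, z, rfl⟩
  · intro c t z w w' p hw hw'
    by_cases hc : Valid c
    · simp only [st, if_pos hc] at hw hw'
      exact lst_uniq hw hw'
    · simp only [st, if_neg hc] at hw hw'
      have h1 : w = z := hw
      have h2 : w' = z := hw'
      rw [h1, h2]
  · intro c t z w p p' hpp hp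
    by_cases hc : Valid c
    · simp only [st, if_pos hc] at hp ⊢
      have hE : ∀ w, Inv r c.1 (E0 c t z w) := by
        intro w
        simp only [E0]
        split_ifs
        · exact inv_gr _
        · exact inv_cl hκ0 (hc t z w)
      have h1 : Inv r c.1 (lst (E0 c t z) w) :=
        inv_an (hE w) (inv_al (ι := {w' // w' < w}) fun w' => inv_neg hκ0 (hE w'.1))
      exact h1 p p' hpp hp
    · simp only [st, if_neg hc] at hp ⊢
      exact hp
  · intro R hrefl
    have hnice : ∀ t z w, ∃ A : Set (Co κ ((M × Set M) × Finset K × N)), #A ≤ κ ∧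
        ∀ q, q ∈ meets A ↔ q ∈ meets (R t z w).c := fun t z w => exists_nice (cc_Co hκ h2) _
    choose A hA1 hA2 using hnice
    obtain ⟨η, hη⟩ := he A hA1
    -- a bound for the ranks
    let ι : Type := Σ x : Finset K × N × N, Σ s : A x.1 x.2.1 x.2.2, s.1.supp
    have hι : #ι ≤ ν := by
      have h1 : ∀ (x : Finset K × N × N) (s : A x.1 x.2.1 x.2.2), #s.1.supp ≤ ν := fun x s =>
        s.1.small.le.trans hκν
      have h3 : ∀ x : Finset K × N × N, #(Σ s : A x.1 x.2.1 x.2.2, s.1.supp) ≤ ν := by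
        intro x
        rw [Cardinal.mk_sigma]
        refine (Cardinal.sum_le_mk_mul_iSup _).trans ?_
        calc #(A x.1 x.2.1 x.2.2) * (⨆ s : A x.1 x.2.1 x.2.2, #s.1.supp) ≤ ν * ν :=
              mul_le_mul' ((hA1 _ _ _).trans hκν) (ciSup_le' fun s => h1 x s)
          _ = ν := mul_eq_self hν0
      have hTNN : #(Finset K × N × N) ≤ ν := by
        simp only [mk_prod, lift_id]
        calc #(Finset K) * (#N * #N) ≤ ν * (ν * ν) := mul_le_mul' hT (mul_le_mul' hN hN)
          _ = ν := by rw [mul_eq_self hν0, mul_eq_self hν0]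
      change #(Σ x : Finset K × N × N, Σ s : A x.1 x.2.1 x.2.2, s.1.supp) ≤ ν
      rw [Cardinal.mk_sigma]
      refine (Cardinal.sum_le_mk_mul_iSup _).trans ?_
      calc #(Finset K × N × N) * (⨆ x : Finset K × N × N, #(Σ s : A x.1 x.2.1 x.2.2, s.1.supp))
            ≤ ν * ν := mul_le_mul' hTNN (ciSup_le' h3)
        _ = ν := mul_eq_self hν0
    obtain ⟨ξ0, hξ0⟩ := h400_bdd hν0 ι hι (fun i => r i.2.2.1)
    obtain ⟨β, hβ⟩ : ∃ β : M, ξ0 < β := by
      by_contra hcon
      push Not at hcon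
      have h1 : #M ≤ #(Set.Iic ξ0) := by
        rw [← Cardinal.mk_univ (α := M)]
        exact Cardinal.mk_le_mk_of_subset (fun y _ => hcon y)
      rw [← Set.Iio_insert, hM] at h1
      have h3 : #(insert ξ0 (Set.Iio ξ0) : Set M) < Order.succ ν := by
        refine small_insert (hν0.trans (Order.le_succ ν)) ?_ ξ0
        exact Cardinal.mk_Iio_toType_ord_lt ξ0
      exact absurd h1 (not_le.2 h3)
    have hval : Valid (β, η) := by
      intro t z w s hs l hl
      rw [hη] at hs
      exact lt_of_le_of_lt (hξ0 ⟨(t, z, w), ⟨s, hs⟩, ⟨l, hl⟩⟩) hβ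
    refine ⟨(β, η), fun t z w => ?_⟩
    have hE : E0 (β, η) t z = R t z := by
      funext w
      apply RO.eq
      intro p
      simp only [E0]
      split_ifs with hw
      · subst hw
        exact ⟨fun _ => hrefl _ _ _, fun _ => trivial⟩
      · rw [hη, mem_cl, hA2 t z w p, meets_c]
        exact Iff.rfl
    simp only [st, if_pos hval, hE]

end Pool.Agent.R588.S
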