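import Pool.Agent.R588.S.Ext
import Pool.Agent.R588.S.Univ
import Pool.Agent.R588.S.Conv

/-!
# The main theorem
-/

set_option autoImplicit false

namespace Pool.Agent.R588.S

open Cardinal Set Pool.Agent.Helper669.Forcing Pool.Agent.Helper669.K

theorem RO.mem_of_meets {P : Type} [Preorder P] {φ : RO P} {p : P} (h : p ∈ meets φ.c) : p ∈ φ := by
  rw [meets_c] at h
  exact h

theorem RO.meets_of {P : Type} [Preorder P] {φ : RO P} {p : P} (h : p ∈ φ) : p ∈ meets φ.c := by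
  rw [meets_c]
  exact h

/-- no uniform ultrafilter of the Prikry extension has a small base -/
theorem large_PQ {P : Type} [Preorder P] {K : Type} [LinearOrder K] [Nonempty K]
    {U : (K → RO P) → RO P} {κ : Cardinal.{0}} (hκ : ℵ₀ ≤ κ) (hU : Meas κ U) {N I : Type}
    (hT : Task U N) (j : (I × K) ⊕ K ↪ N) (q : PQ U) : q ∈ UltrafilterNumberGt (PQ U) K I := by
  classical
  intro q1 _ hq1
  obtain ⟨q2, hq2, W, hW, hWB⟩ := mem_fex.1 hq1 q1 le_rfl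
  obtain ⟨q3, hq3, B, hB1, hB2⟩ := mem_fex.1 hWB q2 le_rfl
  have hdW : Down (IsUniformUltrafilter W) := by
    unfold IsUniformUltrafilter
    refine down_fand (down_fall fun _ => down_fall fun _ => down_fimp _ _) ?_
    refine down_fand (down_fall fun _ => down_fand (down_fimp _ _) (down_fimp _ _)) ?_
    refine down_fand (down_fall fun _ => down_fall fun _ => down_fimp _ _) ?_
    exact down_fall fun _ => down_fimp _ _
  obtain ⟨-, hW2, -, hW4⟩ := hdW _ hW _ hq3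
  -- injective functions into the sets of the base
  let IN : I → PQ U → (K → K → Set (PQ U)) → Prop := fun i r R =>
    r ∈ IsFun R ∧ r ∈ IsInj R ∧ ∀ x y, r ∈ fimp (meets (R x y)) (meets (B i y))
  have hINd : ∀ i r R r', r' ≤ r → IN i r R → IN i r' R := by
    rintro i r R r' hr' ⟨h1, h2, h3⟩
    exact ⟨down_IsFun _ _ h1 _ hr', down_IsInj _ _ h2 _ hr', fun x y =>
      down_fimp _ _ _ (h3 x y) _ hr'⟩
  have hIN : ∀ i, ∀ r ≤ q3, ∃ r' ≤ r, ∃ R, IN i r' R := by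
    intro i r hr
    obtain ⟨r', hr', h1⟩ := mem_fimp.1 (hW4 (B i)) r hr (down_meets _ _ (hB1 i) _ hr)
    obtain ⟨r'', hr'', R, h2, h3, h4⟩ := mem_fex.1 h1 r' le_rfl
    exact ⟨r'', hr''.trans hr', R, h2, h3, fun x y => h4 x y⟩
  have hmix : ∀ i, ∃ F : K × K → RO (PQ U), ∀ r ≤ q3, ∃ r' ≤ r, ∃ R, IN i r' R ∧
      ∀ x y, ∀ u ≤ r', (u ∈ F (x, y) ↔ u ∈ meets (R x y)) := by
    intro i
    have hch : ∀ r : PQ U, ∃ R : K → K → Set (PQ U), (∃ R, IN i r R) → IN i r R := by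
      intro r
      by_cases h : ∃ R, IN i r R
      · obtain ⟨R, hR⟩ := h
        exact ⟨R, fun _ => hR⟩
      · exact ⟨fun _ _ => ∅, fun h' => absurd h' h⟩
    choose R hR using hch
    obtain ⟨F, hF⟩ := mix {r : PQ U | ∃ R, IN i r R} (fun r (y : K × K) => cl (R r y.1 y.2))
    refine ⟨F, fun r hr => ?_⟩
    obtain ⟨r0, hr0, hr0'⟩ := hIN i r hr
    obtain ⟨r1, hr1, a, ha, hr1a, hloc⟩ := hF r ⟨r0, hr0, hr0'⟩
    exact ⟨r1, hr1, R a, hINd i _ _ _ hr1a (hR a ha), fun x y u hu => hloc (x, y) u hu⟩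
  choose F hF using hmix
  -- the names for the elements
  have hZ : Nonempty ((I × K) ⊕ K) := ⟨Sum.inr (Classical.arbitrary K)⟩
  let e : N → (I × K) ⊕ K := Function.invFun j
  have he : ∀ z, e (j z) = z := Function.leftInverse_invFun j.injective
  let η' : (I × K) ⊕ K → K → RO (PQ U) := fun z y => match z with
    | Sum.inl x => F x.1 (x.2, y)
    | Sum.inr y0 => gr (y0 = y)
  let E : N → N → RO (PQ U) := fun n n' => al fun y => iv (η' (e n) y) (η' (e n') y)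
  obtain ⟨S, hS⟩ := core hκ hU hT E
    (fun z q y => mem_iv.2 fun r _ => Iff.rfl)
    (fun z z' q h y => mem_iv.2 fun r hr => (mem_iv.1 (h y) r hr).symm)
    (fun z z' z'' q h h' y => mem_iv.2 fun r hr =>
      (mem_iv.1 (h y) r hr).trans (mem_iv.1 (h' y) r hr))
    (fun y => j (Sum.inr y))
  -- the hypotheses of the core
  have hE1 : ∀ i, ∀ q ≤ q3, ∀ ξ ξ', ξ ≠ ξ' → q ∈ neg (E (j (Sum.inl (i, ξ)))
      (j (Sum.inl (i, ξ')))) := by
    intro i q hq ξ ξ' hne u hu huE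
    obtain ⟨r, hr, R, ⟨h1, h2, h3⟩, hloc⟩ := hF i u (hu.trans hq)
    obtain ⟨r', hr', y, hy⟩ := IsFun.total h1 ξ
    have h4 : r' ∈ F i (ξ, y) := (hloc ξ y r' hr').2 hy
    have h5 := mem_iv.1 (huE y) r' (hr'.trans hr)
    simp only [he, η'] at h5
    have h6 : r' ∈ meets (R ξ' y) := (hloc ξ' y r' hr').1 (h5.1 h4)
    exact hne (IsInj.eq (down_IsInj _ _ h2 _ hr') hy h6)
  have hE2 : ∀ i, ∀ q ≤ q3, ∀ ξ, ∀ r ≤ q, ∃ r' ≤ r, ∃ y, r' ∈ E (j (Sum.inl (i, ξ)))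
      (j (Sum.inr y)) := by
    intro i q hq ξ u hu
    obtain ⟨r, hr, R, ⟨h1, h2, h3⟩, hloc⟩ := hF i u (hu.trans hq)
    obtain ⟨r', hr', y, hy⟩ := IsFun.total h1 ξ
    refine ⟨r', hr'.trans hr, y, fun y' => mem_iv.2 fun v hv => ?_⟩
    simp only [he, η']
    rw [hloc ξ y' v (hv.trans hr')]
    constructor
    · intro h4
      exact IsFun.unique (down_IsFun _ _ h1 _ (hv.trans hr')) (down_meets _ _ hy _ hv) h4
    · intro h4
      have h5 : y = y' := h4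
      rw [← h5]
      exact down_meets _ _ hy _ hv
  have hE3 : ∀ i, ∀ q ≤ q3, ∀ ξ y, q ∈ E (j (Sum.inl (i, ξ))) (j (Sum.inr y)) →
      ∃ r ≤ q, r ∈ meets (B i y) := by
    intro i q hq ξ y hqE
    obtain ⟨r, hr, R, ⟨h1, h2, h3⟩, hloc⟩ := hF i q hq
    have h5 := mem_iv.1 (hqE y) r hr
    simp only [he, η'] at h5
    have h6 : r ∈ meets (R ξ y) := (hloc ξ y r le_rfl).1 (h5.2 (mem_gr.2 trivial))
    obtain ⟨r', hr', h7⟩ := mem_fimp.1 (h3 ξ y) r le_rfl h6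
    exact ⟨r', hr'.trans hr, h7⟩
  -- decide whether `S` belongs to the ultrafilter
  obtain ⟨q4, hq4, h4 | h4⟩ := em (cl (W fun y => (S y).c)) q3
  · obtain ⟨q5, hq5, h5⟩ := mem_fimp.1 (hB2 fun y => (S y).c) q4 hq4 h4
    obtain ⟨q6, hq6, i, h6⟩ := mem_fex.1 h5 q5 le_rfl
    have hq63 : q6 ≤ q3 := hq6.trans (hq5.trans hq4)
    obtain ⟨-, r, hr, ξ, y, hrE, hrS⟩ := hS q6 (fun ξ => j (Sum.inl (i, ξ))) (hE1 i q6 hq63)
      (hE2 i q6 hq63)
    obtain ⟨r1, hr1, h7⟩ := hE3 i r (hr.trans hq63) ξ y hrE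
    obtain ⟨r2, hr2, h8⟩ := mem_fimp.1 (h6 y) r1 (hr1.trans hr) h7
    exact hrS r2 (hr2.trans hr1) (RO.mem_of_meets h8)
  · obtain ⟨q4', hq4', h4'⟩ := mem_fimp.1 (hW2 fun y => (S y).c).2 q4 hq4 h4
    obtain ⟨q5, hq5, h5⟩ := mem_fimp.1 (hB2 _) q4' (hq4'.trans hq4) h4'
    obtain ⟨q6, hq6, i, h6⟩ := mem_fex.1 h5 q5 le_rfl
    have hq63 : q6 ≤ q3 := hq6.trans (hq5.trans (hq4'.trans hq4))
    obtain ⟨⟨r, hr, ξ, y, hrE, hrS⟩, -⟩ := hS q6 (fun ξ => j (Sum.inl (i, ξ))) (hE1 i q6 hq63)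
      (hE2 i q6 hq63)
    obtain ⟨r1, hr1, h7⟩ := hE3 i r (hr.trans hq63) ξ y hrE
    obtain ⟨r2, hr2, h8⟩ := mem_fimp.1 (h6 y) r1 (hr1.trans hr) h7
    obtain ⟨r3, hr3, s, hs, hr3s⟩ := h8 r2 le_rfl
    exact hs r3 hr3s (RO.meets_of (RO.dn hrS (hr3.trans (hr2.trans hr1))))

/-- **The ultrafilter number at a strong limit singular cardinal.** -/
theorem main (κ : Cardinal.{0}) (hκ : IndestructiblySupercompact κ) (μ : Cardinal.{0}) :
    ∃ (Q : Type) (_ : Preorder Q), Nonempty Q ∧ ∀ q : Q, q ∈ StrongLimitN Q κ ∧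
      q ∈ CofOmegaN Q κ ∧ q ∈ StaysRegular Q (Order.succ κ) ∧
      q ∈ UltrafilterNumberGt Q κ.ord.ToType μ.ord.ToType := by
  classical
  obtain ⟨hreg, h2⟩ := regular_of_supercompact hκ
  obtain ⟨hκ1, hQ⟩ := hκ
  have hκ0 : ℵ₀ ≤ κ := hκ1.le
  have hK : #κ.ord.ToType = κ := Cardinal.mk_ord_toType κ
  have hne : Nonempty κ.ord.ToType := by
    rw [← mk_ne_zero_iff, hK]
    exact (aleph0_pos.trans hκ1).ne'
  have hIio : ∀ b : κ.ord.ToType, #(Set.Iio b) < κ := by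
    intro b
    have := Cardinal.mk_Iio_lt b (by simp)
    rwa [hK] at this
  have hinf : Infinite κ.ord.ToType := by
    rw [Cardinal.infinite_iff, hK]
    exact hκ0
  obtain ⟨ν, hν⟩ : ∃ ν, ν = max κ μ := ⟨_, rfl⟩
  have hκν : κ ≤ ν := hν ▸ le_max_left _ _
  have hμν : μ ≤ ν := hν ▸ le_max_right _ _
  have hν0 : ℵ₀ ≤ ν := hκ0.trans hκν
  have hN : #ν.ord.ToType = ν := Cardinal.mk_ord_toType ν
  have hFin : #(Finset κ.ord.ToType) ≤ ν := by
    rw [Cardinal.mk_finset_of_infinite, hK]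
    exact hκν
  obtain ⟨C, M, iM1, iM2, rk, st, hst, huniv⟩ := exists_sys hreg h2 hκν κ.ord.ToType
    ν.ord.ToType hFin hN.le
  obtain ⟨V, hV⟩ := exists_NF (P := Co κ (C × Finset κ.ord.ToType × ν.ord.ToType)) (κ := κ)
    (X := XX C κ.ord.ToType ν.ord.ToType
      (κ.ord.ToType → RO (Co κ (C × Finset κ.ord.ToType × ν.ord.ToType))))
    (hQ _ (dirClosed_Co hreg) _)
  have hgood := good_most hκ0 hK.ge hIio hV
  obtain ⟨H, hH⟩ := exists_H hreg hst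
  have hU := meas_of hreg hV hH hgood
  have hT := task_of hreg h2 hK.ge hst huniv hV hH hgood
  have hdist : ∀ (J : Type)
      (D : J → Set (Co κ (C × Finset κ.ord.ToType × ν.ord.ToType))), #J < κ →
      (∀ j, Down (D j)) → (∀ j q, ∃ q' ≤ q, q' ∈ D j) → ∀ q, ∃ q' ≤ q, ∀ j, q' ∈ D j :=
    fun J D hJ hD hD' q => exists_forall_mem hκ0 (dirClosed_Co hreg) hJ D hD hD' q
  obtain ⟨j⟩ : Nonempty ((μ.ord.ToType × κ.ord.ToType) ⊕ κ.ord.ToType ↪ ν.ord.ToType) := by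
    rw [← Cardinal.le_def, hN, Cardinal.mk_sum, Cardinal.mk_prod]
    simp only [Cardinal.lift_id, Cardinal.mk_ord_toType]
    calc μ * κ + κ ≤ ν * ν + ν := add_le_add (mul_le_mul' hμν hκν) hκν
      _ = ν := by rw [Cardinal.mul_eq_self hν0, Cardinal.add_eq_self hν0]
  refine ⟨PQ (fun A : κ.ord.ToType → RO (Co κ (C × Finset κ.ord.ToType × ν.ord.ToType)) =>
    V (str H A)), inferInstance, ⟨?_⟩, fun q => ⟨?_, ?_, ?_, ?_⟩⟩
  · exact ⟨⟨fun _ => none, by simpa using aleph0_pos.trans hκ1⟩, ∅, fun _ => gr True,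
      hU.of_forall fun _ _ _ => trivial⟩
  · exact strongLimit_PQ hreg h2 hU hdist q
  · exact cofOmega_PQ hκ0 hU q
  · exact staysRegular_succ hκ0 (fun ι f hι => cc_PQ hκ0 hK hU (fun ι f hι =>
      cc_Co hreg h2 ι f hι) ι f hι) q
  · exact large_PQ hκ0 hU hT j q

end Pool.Agent.R588.S
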