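import Pool.Agent.R588.S.Co

/-!
# Master conditions
-/

set_option autoImplicit false

namespace Pool.Agent.R588.S

open Cardinal Set Pool.Agent.Helper669.Forcing Pool.Agent.Helper669.K

variable {κ : Cardinal.{0}} {C K N M : Type}

/-- a system of named functions `st c t : N → N`, where the `c`-th one depends only on the
coordinates of rank below the rank of `c` -/
structure StSys [LT M] (rk : C → M)
    (st : C → Finset K → N → N → RO (Co κ (C × Finset K × N))) : Prop where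
  total : ∀ c t z p, ∃ q ≤ p, ∃ w, q ∈ st c t z w
  uniq : ∀ c t z w w' p, p ∈ st c t z w → p ∈ st c t z w' → w = w'
  rank : ∀ c t z w (p p' : Co κ (C × Finset K × N)),
    (∀ l : C × Finset K × N, rk l.1 < rk c → p'.f l = p.f l) → p ∈ st c t z w → p' ∈ st c t z w

theorem small_insert (hκ : ℵ₀ ≤ κ) {X : Type} {A : Set X} (hA : #A < κ) (a : X) :
    #(insert a A : Set X) < κ := by
  refine lt_of_le_of_lt Cardinal.mk_insert_le ?_
  exact Cardinal.add_lt_of_lt hκ hA (lt_of_lt_of_le Cardinal.one_lt_aleph0 hκ)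

theorem exists_master (hκ : κ.IsRegular) [LinearOrder M] [WellFoundedLT M] [LinearOrder K]
    {rk : C → M} {st : C → Finset K → N → N → RO (Co κ (C × Finset K × N))} (hst : StSys rk st)
    (xC : Set C) (xT : Set (Finset K)) (xN : Set N) (hC : #xC < κ) (hT : #xT < κ) (hN : #xN < κ)
    (k0 : K) (hk0 : ∀ t ∈ xT, ∀ a ∈ t, a < k0) (𝒜 : Set (RO (Co κ (C × Finset K × N))))
    (h𝒜 : #𝒜 < κ) (g : Co κ (C × Finset K × N))
    (hg : ∀ l ∈ g.supp, l.1 ∈ xC ∧ l.2.1 ∈ xT ∧ l.2.2 ∈ xN) :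
    ∃ h : Co κ (C × Finset K × N), h ≤ g ∧ (∀ φ ∈ 𝒜, h ∈ φ ∨ h ∈ neg φ) ∧
      ∀ c ∈ xC, ∀ t ∈ xT, ∀ z ∈ xN, ∃ w z₁ w₁, z₁ ∈ xN ∧ h ∈ st c (insert k0 t) z w ∧
        h ∈ st c (insert k0 t) z₁ w ∧ h ∈ st c t z₁ w₁ ∧
        ∀ i, g.f (c, t, w₁) = some i → h.f (c, insert k0 t, w) = some i := by
  classical
  have hκ0 := hκ.aleph0_le
  have hJ : #(xC × xT × xN) < κ := by
    simp only [Cardinal.mk_prod, Cardinal.lift_id]
    exact Cardinal.mul_lt_of_lt hκ0 hC (Cardinal.mul_lt_of_lt hκ0 hT hN)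
  -- the stages
  let R : Set M := rk '' xC
  have hR : #R < κ := Cardinal.mk_image_le.trans_lt hC
  have hNe : Nonempty (Co κ (C × Finset K × N)) := ⟨g⟩
  let Done : M → Co κ (C × Finset K × N) → Prop := fun β b =>
    ∀ c ∈ xC, rk c = β → ∀ t ∈ xT, ∀ z ∈ xN, ∃ w z₁ w₁, z₁ ∈ xN ∧ b ∈ st c (insert k0 t) z w ∧
        b ∈ st c (insert k0 t) z₁ w ∧ b ∈ st c t z₁ w₁ ∧
        ∀ i, g.f (c, t, w₁) = some i → b.f (c, insert k0 t, w) = some i
  obtain ⟨f, hf⟩ := Pool.Agent.Helper669.KDelta.rec_choice (ι := R)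
    (β := Co κ (C × Finset K × N)) (r := (· < ·)) wellFounded_lt
    (fun i f b => b ≤ g ∧ (∀ j : R, j < i → b ≤ f j) ∧
      (∀ l ∈ b.supp, l ∈ g.supp ∨ rk l.1 ≤ i.1) ∧ Done i.1 b)
    (by
      rintro i f f' b hff' ⟨h1, h2, h3, h4⟩
      exact ⟨h1, fun j hj => hff' j hj ▸ h2 j hj, h3, h4⟩)
    (by
      intro i f hf
      -- the union of the previous stages
      obtain ⟨q0, hq0, hq0s⟩ := exists_union hκ (insert g (f '' {j | j < i}))
        (small_insert hκ0 ((Cardinal.mk_image_le.trans (Cardinal.mk_set_le _)).trans_lt hR) g) (by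
          intro a ha b hb
          rcases ha with rfl | ⟨j, hj, rfl⟩
          · rcases hb with rfl | ⟨j, hj, rfl⟩
            · exact ⟨_, Or.inl rfl, le_rfl, le_rfl⟩
            · exact ⟨f j, Or.inr ⟨j, hj, rfl⟩, (hf j hj).1, le_rfl⟩
          · rcases hb with rfl | ⟨j', hj', rfl⟩
            · exact ⟨f j, Or.inr ⟨j, hj, rfl⟩, le_rfl, (hf j hj).1⟩
            · rcases lt_trichotomy j j' with h | h | h
              · exact ⟨f j', Or.inr ⟨j', hj', rfl⟩, (hf j' hj').2.1 j h, le_rfl⟩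
              · subst h
                exact ⟨f j, Or.inr ⟨j, hj, rfl⟩, le_rfl, le_rfl⟩
              · exact ⟨f j, Or.inr ⟨j, hj, rfl⟩, le_rfl, (hf j hj).2.1 j' h⟩)
      have hq0g : q0 ≤ g := hq0 g (Or.inl rfl)
      have hq0f : ∀ j : R, j < i → q0 ≤ f j := fun j hj => hq0 _ (Or.inr ⟨j, hj, rfl⟩)
      have hq0s' : ∀ l ∈ q0.supp, l ∈ g.supp ∨ rk l.1 < i.1 := by
        intro l hl
        obtain ⟨d, hd, hld⟩ := hq0s l hl
        rcases hd with rfl | ⟨j, hj, rfl⟩
        · exact Or.inl hld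
        · rcases (hf j hj).2.2.1 l hld with h | h
          · exact Or.inl h
          · exact Or.inr (lt_of_le_of_lt h hj)
      -- decide
      obtain ⟨q1, hq1, hq1d⟩ := exists_forall_mem hκ0 (dirClosed_Co hκ) hJ
        (fun x : xC × xT × xN => {r : Co κ (C × Finset K × N) |
          (∃ w, r ∈ st x.1 (insert k0 x.2.1.1) x.2.2 w) ∧ ∃ w, r ∈ st x.1 x.2.1 x.2.2 w})
        (by
          rintro x p ⟨⟨w, hw⟩, w', hw'⟩ q hq
          exact ⟨⟨w, RO.dn hw hq⟩, w', RO.dn hw' hq⟩)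
        (by
          intro x p
          obtain ⟨q, hq, w, hw⟩ := hst.total x.1 (insert k0 x.2.1.1) x.2.2 p
          obtain ⟨q', hq', w', hw'⟩ := hst.total x.1 x.2.1 x.2.2 q
          exact ⟨q', hq'.trans hq, ⟨w, RO.dn hw hq'⟩, w', hw'⟩) q0
      obtain ⟨q2, hq2a, hq2b⟩ := exists_splice hκ0 {l : C × Finset K × N | rk l.1 < i.1} q1 q0
      have hq2 : q2 ≤ q0 := by
        intro l b hb
        by_cases hl : rk l.1 < i.1
        · rw [hq2a l hl]
          exact hq1 l b hb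
        · rw [hq2b l hl]
          exact hb
      have hw : ∀ x : C × Finset K × N, ∃ w w', (x.1 ∈ xC → rk x.1 = i.1 → x.2.1 ∈ xT →
          x.2.2 ∈ xN → q2 ∈ st x.1 (insert k0 x.2.1) x.2.2 w ∧ q2 ∈ st x.1 x.2.1 x.2.2 w') := by
        intro x
        by_cases hx : x.1 ∈ xC ∧ rk x.1 = i.1 ∧ x.2.1 ∈ xT ∧ x.2.2 ∈ xN
        · obtain ⟨h1, h2, h3, h4⟩ := hx
          obtain ⟨⟨w, hw⟩, w', hw'⟩ := hq1d (⟨x.1, h1⟩, ⟨x.2.1, h3⟩, ⟨x.2.2, h4⟩)
          refine ⟨w, w', fun _ _ _ _ => ⟨hst.rank _ _ _ _ q1 q2 ?_ hw,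
            hst.rank _ _ _ _ q1 q2 ?_ hw'⟩⟩
          · intro l hl
            exact hq2a l (h2 ▸ hl)
          · intro l hl
            exact hq2a l (h2 ▸ hl)
        · exact ⟨x.2.2, x.2.2, fun h1 h2 h3 h4 => absurd ⟨h1, h2, h3, h4⟩ hx⟩
      choose W W' hWW using hw
      -- set the values of rank `i`
      let S : C × Finset K × N → C × Finset K × N → Prop := fun l x =>
        x.1 ∈ xC ∧ rk x.1 = i.1 ∧ x.2.1 ∈ xT ∧ x.2.2 ∈ xN ∧ l = (x.1, insert k0 x.2.1, W x)
      let g' : C × Finset K × N → Option Bool := fun l =>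
        if h : ∃ x, S l x then g.f (h.choose.1, h.choose.2.1, W' h.choose) else none
      have hZ : #((fun x : xC × xT × xN => ((x.1.1, insert k0 x.2.1.1,
          W (x.1.1, x.2.1.1, x.2.2.1)) : C × Finset K × N)) '' Set.univ) < κ := by
        refine Cardinal.mk_image_le.trans_lt ?_
        rw [Cardinal.mk_univ]
        exact hJ
      obtain ⟨q3, hq3, hq3'⟩ := exists_add hκ0 q2 g' _ hZ (by
        intro l hl
        by_cases h : ∃ x, S l x
        · obtain ⟨x, h1, h2, h3, h4, h5⟩ := h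
          exact ⟨(⟨x.1, h1⟩, ⟨x.2.1, h3⟩, ⟨x.2.2, h4⟩), trivial, h5.symm⟩
        · exact absurd (dif_neg h) hl)
      refine ⟨q3, hq3.trans (hq2.trans hq0g), fun j hj => hq3.trans (hq2.trans (hq0f j hj)), ?_, ?_⟩
      · intro l hl
        by_cases hl2 : l ∈ q2.supp
        · by_cases hli : rk l.1 < i.1
          · exact Or.inr hli.le
          · have h1 : l ∈ q0.supp := by
              unfold Co.supp
              rw [Set.mem_ofPred_eq, ← hq2b l hli]
              exact hl2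
            rcases hq0s' l h1 with h2 | h2
            · exact Or.inl h2
            · exact Or.inr h2.le
        · have h1 := hq3' l (Co.not_mem_supp.1 hl2)
          unfold Co.supp at hl
          rw [Set.mem_ofPred_eq, h1] at hl
          by_cases h : ∃ x, S l x
          · obtain ⟨x, -, h2, -, -, h5⟩ := h
            refine Or.inr ?_
            rw [h5]
            exact h2.le
          · exact absurd (dif_neg h) hl
      · intro c hc hci t ht z hz
        have hS : ∃ x, S (c, insert k0 t, W (c, t, z)) x := ⟨(c, t, z), hc, hci, ht, hz, rfl⟩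
        obtain ⟨x, hx⟩ : ∃ x, x = hS.choose := ⟨_, rfl⟩
        obtain ⟨h1, h2, h3, h4, h5⟩ := hS.choose_spec
        rw [← hx] at h1 h2 h3 h4 h5
        obtain ⟨c', t', z'⟩ := x
        dsimp only at h1 h2 h3 h4 h5
        rw [Prod.mk.injEq, Prod.mk.injEq] at h5
        obtain ⟨h6, h7, h8⟩ := h5
        subst h6
        have h9 : t' = t := by
          have h10 : k0 ∉ t := fun h => lt_irrefl _ (hk0 t ht k0 h)
          have h11 : k0 ∉ t' := fun h => lt_irrefl _ (hk0 t' h3 k0 h)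
          rw [← Finset.erase_insert h10, ← Finset.erase_insert h11, h7]
        subst h9
        have hW1 := hWW (c, t', z) hc hci ht hz
        have hW2 := hWW (c, t', z') hc hci ht h4
        dsimp only at hW1 hW2
        refine ⟨W (c, t', z), z', W' (c, t', z'), h4, RO.dn hW1.1 hq3, ?_, RO.dn hW2.2 hq3, ?_⟩
        · rw [h8]
          exact RO.dn hW2.1 hq3
        · intro j hj
          have h12 : q2.f (c, insert k0 t', W (c, t', z)) = none := by
            have h13 : ¬ rk ((c, insert k0 t', W (c, t', z)) : C × Finset K × N).1 < i.1 := by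
              dsimp only
              rw [hci]
              exact lt_irrefl _
            rw [hq2b _ h13]
            by_contra h14
            rcases hq0s' _ h14 with h15 | h15
            · exact lt_irrefl _ (hk0 _ (hg _ h15).2.1 k0 (Finset.mem_insert_self _ _))
            · exact h13 h15
          rw [hq3' _ h12]
          simp only [g', dif_pos hS, ← hx]
          exact hj)
  -- the union of all stages
  obtain ⟨q4, hq4, -⟩ := exists_union hκ (insert g (Set.range f))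
    (small_insert hκ0 (Cardinal.mk_range_le.trans_lt hR) g) (by
      intro a ha b hb
      rcases ha with rfl | ⟨j, rfl⟩
      · rcases hb with rfl | ⟨j, rfl⟩
        · exact ⟨_, Or.inl rfl, le_rfl, le_rfl⟩
        · exact ⟨f j, Or.inr ⟨j, rfl⟩, (hf j).1, le_rfl⟩
      · rcases hb with rfl | ⟨j', rfl⟩
        · exact ⟨f j, Or.inr ⟨j, rfl⟩, le_rfl, (hf j).1⟩
        · rcases lt_trichotomy j j' with h | h | h
          · exact ⟨f j', Or.inr ⟨j', rfl⟩, (hf j').2.1 j h, le_rfl⟩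
          · subst h
            exact ⟨f j, Or.inr ⟨j, rfl⟩, le_rfl, le_rfl⟩
          · exact ⟨f j, Or.inr ⟨j, rfl⟩, le_rfl, (hf j).2.1 j' h⟩)
  obtain ⟨h, hh, hhd⟩ := exists_forall_mem hκ0 (dirClosed_Co hκ) h𝒜
    (fun φ : 𝒜 => {r : Co κ (C × Finset K × N) | r ∈ φ.1 ∨ r ∈ neg φ.1})
    (by
      rintro φ p (hp | hp) q hq
      · exact Or.inl (RO.dn hp hq)
      · exact Or.inr (RO.dn hp hq))
    (fun φ p => em φ.1 p) q4
  refine ⟨h, hh.trans (hq4 g (Or.inl rfl)), fun φ hφ => hhd ⟨φ, hφ⟩, ?_⟩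
  intro c hc t ht z hz
  have hcR : rk c ∈ R := ⟨c, hc, rfl⟩
  have hle : h ≤ f ⟨rk c, hcR⟩ := hh.trans (hq4 _ (Or.inr ⟨_, rfl⟩))
  obtain ⟨w, z₁, w₁, h1, h2, h3, h4, h5⟩ := (hf ⟨rk c, hcR⟩).2.2.2 c hc rfl t ht z hz
  exact ⟨w, z₁, w₁, h1, RO.dn h2 hle, RO.dn h3 hle, RO.dn h4 hle, fun i hi => hle _ _ (h5 i hi)⟩

end Pool.Agent.R588.S
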