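import Pool.Agent.R588.S.RO
import Pool.Agent.R588.S.Defs

/-!
# Normal fine ultrafilters in the extension
-/

set_option autoImplicit false

namespace Pool.Agent.R588.S

open Cardinal Set Pool.Agent.Helper669.Forcing

variable {P : Type} [Preorder P]

/-- `V` names a normal fine ultrafilter -/
structure NF (κ : Cardinal.{0}) (X : Type) (V : (PK κ X → RO P) → RO P) : Prop where
  up : ∀ p A B, p ∈ V A → (∀ q ≤ p, ∀ x, q ∈ A x → q ∈ B x) → p ∈ V B
  ult : ∀ p A, p ∈ V (fun x => neg (A x)) ↔ p ∈ neg (V A)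
  inter : ∀ (J : Type) (A : J → PK κ X → RO P) p, #J < κ → (∀ j, p ∈ V (A j)) →
    p ∈ V fun x => al fun j => A j x
  fine : ∀ a p, p ∈ V fun x => gr (a ∈ x.1)
  normal : ∀ (A : X → PK κ X → RO P) p, (∀ a, p ∈ V (A a)) →
    p ∈ V fun x => al fun a : x.1 => A a.1 x

namespace NF

variable {κ : Cardinal.{0}} {X : Type} {V : (PK κ X → RO P) → RO P}

theorem proper (h : NF κ X V) {p : P} {A : PK κ X → RO P} (hA : p ∈ V A) :
    ∃ q ≤ p, ∃ x, q ∈ A x := by
  by_contra hcon
  push Not at hcon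
  have h1 : p ∈ V fun x => neg (A x) := by
    refine h.up p A _ hA fun q hq x hx => absurd hx (hcon q hq x)
  exact not_both hA ((h.ult p A).1 h1)

theorem and (h : NF κ X V) (hκ : ℵ₀ ≤ κ) {p : P} {A B : PK κ X → RO P} (hA : p ∈ V A)
    (hB : p ∈ V B) : p ∈ V fun x => an (A x) (B x) := by
  have h1 := h.inter Bool (fun b => if b then A else B) p
    ((lt_aleph0_of_finite Bool).trans_le hκ) (by
      intro b
      cases b
      · exact hB
      · exact hA)
  refine h.up p _ _ h1 fun q _ x hx => ⟨?_, ?_⟩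
  · exact hx true
  · exact hx false

theorem of_forall (h : NF κ X V) [Nonempty X] {p : P} {A : PK κ X → RO P}
    (hA : ∀ q ≤ p, ∀ x, q ∈ A x) : p ∈ V A :=
  h.up p _ A (h.fine (Classical.arbitrary X) p) fun q hq x _ => hA q hq x

theorem gmono (h : NF κ X V) {p : P} {A B : PK κ X → Prop} (hA : p ∈ V fun x => gr (A x))
    (hAB : ∀ x, A x → B x) : p ∈ V fun x => gr (B x) :=
  h.up p _ _ hA fun _ _ x hx => hAB x hx

theorem gand (h : NF κ X V) (hκ : ℵ₀ ≤ κ) {p : P} {A B : PK κ X → Prop}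
    (hA : p ∈ V fun x => gr (A x)) (hB : p ∈ V fun x => gr (B x)) :
    p ∈ V fun x => gr (A x ∧ B x) :=
  h.up p _ _ (h.and hκ hA hB) fun _ _ _ hx => ⟨hx.1, hx.2⟩

theorem ginter (h : NF κ X V) {p : P} {J : Type} (hJ : #J < κ) {A : J → PK κ X → Prop}
    (hA : ∀ j, p ∈ V fun x => gr (A j x)) : p ∈ V fun x => gr (∀ j, A j x) :=
  h.up p _ _ (h.inter J (fun j x => gr (A j x)) p hJ hA) fun _ _ _ hx j => hx j

theorem gnormal (h : NF κ X V) {p : P} {A : X → PK κ X → Prop}
    (hA : ∀ a, p ∈ V fun x => gr (A a x)) : p ∈ V fun x => gr (∀ a ∈ x.1, A a x) :=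
  h.up p _ _ (h.normal (fun a x => gr (A a x)) p hA) fun _ _ _ hx a ha => hx ⟨a, ha⟩

end NF

/-! ### The index set -/

/-- the index set used for the ultrafilter -/
inductive XX (C K N B : Type) : Type where
  | c : C → XX C K N B
  | t : Finset K → XX C K N B
  | k : K → XX C K N B
  | n : N → XX C K N B
  | a : B → XX C K N B

variable {κ : Cardinal.{0}} {C K N B : Type} [LinearOrder K]

/-- `x` restricted to `K` is the initial segment of all elements below `k0` -/
def GoodAt (x : PK κ (XX C K N B)) (k0 : K) : Prop :=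
  (∀ k, XX.k k ∈ x.1 ↔ k < k0) ∧ ∀ t, XX.t t ∈ x.1 ↔ ∀ a ∈ t, a < k0

theorem good_most [WellFoundedLT K] (hκ : ℵ₀ ≤ κ) (hK : κ ≤ #K) (hIio : ∀ k : K, #(Set.Iio k) < κ)
    {V : (PK κ (XX C K N B) → RO P) → RO P} (hV : NF κ _ V) (p : P) :
    p ∈ V fun x => gr (∃ k0, GoodAt x k0) := by
  classical
  -- initial segments
  have h1 : p ∈ V fun x => gr (∀ a ∈ x.1, ∀ k, a = XX.k k → ∀ k' < k, XX.k k' ∈ x.1) := by
    apply hV.gnormal
    intro a
    by_cases ha : ∃ k, a = XX.k k
    · obtain ⟨k, rfl⟩ := ha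
      refine hV.gmono (hV.ginter (hIio k) (A := fun j x => XX.k j.1 ∈ x.1)
        fun j => hV.fine _ p) fun x hx k1 hk1 k' hk' => ?_
      have : k = k1 := by injection hk1
      subst this
      exact hx ⟨k', hk'⟩
    · exact hV.gmono (hV.fine (XX.t ∅) p) fun x _ k hk => absurd ⟨k, hk⟩ ha
  have h2 : p ∈ V fun x => gr (∀ a ∈ x.1, ∀ t, a = XX.t t → ∀ k ∈ t, XX.k k ∈ x.1) := by
    apply hV.gnormal
    intro a
    by_cases ha : ∃ t, a = XX.t t
    · obtain ⟨t, rfl⟩ := ha
      refine hV.gmono (hV.ginter (J := {k // k ∈ t}) ((lt_aleph0_of_finite _).trans_le hκ)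
        (A := fun j x => XX.k j.1 ∈ x.1) fun j => hV.fine _ p) fun x hx t1 ht1 k' hk' => ?_
      have : t = t1 := by injection ht1
      subst this
      exact hx ⟨k', hk'⟩
    · exact hV.gmono (hV.fine (XX.t ∅) p) fun x _ k hk => absurd ⟨k, hk⟩ ha
  have h3 : p ∈ V fun x => gr (∀ a ∈ x.1, ∀ a' ∈ x.1, ∀ k t, a = XX.k k → a' = XX.t t →
      XX.t (insert k t) ∈ x.1) := by
    apply hV.gnormal
    intro a
    apply hV.gnormal
    intro a'
    by_cases ha : ∃ k, a = XX.k k
    · by_cases ha' : ∃ t, a' = XX.t t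
      · obtain ⟨k, rfl⟩ := ha
        obtain ⟨t, rfl⟩ := ha'
        refine hV.gmono (hV.fine (XX.t (insert k t)) p) fun x hx k1 t1 hk1 ht1 => ?_
        have h4 : k = k1 := by injection hk1
        have h5 : t = t1 := by injection ht1
        subst h4
        subst h5
        exact hx
      · exact hV.gmono (hV.fine (XX.t ∅) p) fun x _ k t _ ht => absurd ⟨t, ht⟩ ha'
    · exact hV.gmono (hV.fine (XX.t ∅) p) fun x _ k t hk _ => absurd ⟨k, hk⟩ ha
  refine hV.gmono (hV.gand hκ h1 (hV.gand hκ h2 (hV.gand hκ h3 (hV.fine (XX.t ∅) p)))) ?_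
  rintro x ⟨g1, g2, g3, g4⟩
  have hne : ({k | XX.k k ∉ x.1} : Set K).Nonempty := by
    by_contra hcon
    rw [Set.not_nonempty_iff_eq_empty] at hcon
    have h5 : ∀ k : K, XX.k k ∈ x.1 := by
      intro k
      by_contra h6
      have h7 : k ∈ ({k | XX.k k ∉ x.1} : Set K) := h6
      rw [hcon] at h7
      exact h7
    have h6 : #K ≤ #x.1 := by
      refine Cardinal.mk_le_of_injective (f := fun k => (⟨XX.k k, h5 k⟩ : x.1)) ?_
      intro k k' hkk
      have h8 : (XX.k k : XX C K N B) = XX.k k' := congrArg Subtype.val hkk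
      injection h8
    exact absurd (hK.trans h6) (not_le.2 x.2)
  obtain ⟨k0, hk0, hmin⟩ := WellFounded.has_min (wellFounded_lt (α := K)) _ hne
  have hin : ∀ k, XX.k k ∈ x.1 ↔ k < k0 := by
    intro k
    constructor
    · intro hk
      by_contra h6
      rcases lt_or_eq_of_le (not_lt.1 h6) with h7 | h7
      · exact hk0 (g1 _ hk k rfl k0 h7)
      · exact hk0 (h7 ▸ hk)
    · intro hk
      by_contra h6
      exact hmin k h6 hk
  refine ⟨k0, hin, fun t => ⟨fun ht a ha => (hin a).1 (g2 _ ht t rfl a ha), ?_⟩⟩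
  induction t using Finset.induction_on with
  | empty => exact fun _ => g4
  | insert k t _ ih =>
    intro h6
    exact g3 _ ((hin k).2 (h6 k (Finset.mem_insert_self _ _))) _
      (ih fun a ha => h6 a (Finset.mem_insert_of_mem ha)) k t rfl rfl

end Pool.Agent.R588.S
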