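import Pool.Agent.R588.S.RO

/-!
# Measures in the extension and Prikry forcing over names
-/

set_option autoImplicit false

namespace Pool.Agent.R588.S

open Cardinal Set Pool.Agent.Helper669.Forcing

variable {P : Type} [Preorder P] {K : Type} [LinearOrder K]

/-- `U` names a normal ultrafilter on `K` containing the final segments -/
structure Meas (κ : Cardinal.{0}) (U : (K → RO P) → RO P) : Prop where
  up : ∀ p A B, p ∈ U A → (∀ q ≤ p, ∀ γ, q ∈ A γ → q ∈ B γ) → p ∈ U B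
  ult : ∀ p A, p ∈ U (fun γ => neg (A γ)) ↔ p ∈ neg (U A)
  inter : ∀ (J : Type) (A : J → K → RO P) p, #J < κ → (∀ j, p ∈ U (A j)) →
    p ∈ U fun γ => al fun j => A j γ
  diag : ∀ (A : Finset K → K → RO P) p, (∀ t, p ∈ U (A t)) →
    p ∈ U fun γ => al fun t : {t : Finset K // ∀ a ∈ t, a < γ} => A t.1 γ
  tail : ∀ k p, p ∈ U fun γ => gr (k < γ)

namespace Meas

variable {κ : Cardinal.{0}} {U : (K → RO P) → RO P}

theorem proper (h : Meas κ U) {p : P} {A : K → RO P} (hA : p ∈ U A) : ∃ q ≤ p, ∃ γ, q ∈ A γ := by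
  by_contra hcon
  push Not at hcon
  have h1 : p ∈ U fun γ => neg (A γ) := by
    refine h.up p A _ hA fun q hq γ hγ => absurd hγ (hcon q hq γ)
  exact not_both hA ((h.ult p A).1 h1)

theorem and (h : Meas κ U) (hκ : ℵ₀ ≤ κ) {p : P} {A B : K → RO P} (hA : p ∈ U A) (hB : p ∈ U B) :
    p ∈ U fun γ => an (A γ) (B γ) := by
  have h1 := h.inter Bool (fun b => if b then A else B) p
    ((lt_aleph0_of_finite Bool).trans_le hκ) (by
      intro b
      cases b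
      · exact hB
      · exact hA)
  refine h.up p _ _ h1 fun q _ γ hγ => ⟨?_, ?_⟩
  · exact hγ true
  · exact hγ false

theorem of_forall (h : Meas κ U) [Nonempty K] {p : P} {A : K → RO P} (hA : ∀ q ≤ p, ∀ γ, q ∈ A γ) :
    p ∈ U A :=
  h.up p _ A (h.tail (Classical.arbitrary K) p) fun q hq γ _ => hA q hq γ

theorem diagK (h : Meas κ U) (hκ : ℵ₀ ≤ κ) {p : P} {A : K → K → RO P} (hA : ∀ k, p ∈ U (A k)) :
    p ∈ U fun γ => al fun k : {k // k < γ} => A k.1 γ := by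
  have h1 := h.diag (fun t γ => al fun k : {k // k ∈ t} => A k.1 γ) p (fun t =>
    h.inter {k // k ∈ t} (fun k => A k.1) p ((lt_aleph0_of_finite _).trans_le hκ) fun k => hA k.1)
  refine h.up p _ _ h1 fun q _ γ hγ k => ?_
  have h2 : ∀ a ∈ ({k.1} : Finset K), a < γ := by
    intro a ha
    rw [Finset.mem_singleton.1 ha]
    exact k.2
  exact hγ ⟨{k.1}, h2⟩ ⟨k.1, Finset.mem_singleton_self _⟩

theorem above (h : Meas κ U) (hκ : ℵ₀ ≤ κ) (s : Finset K) (p : P) :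
    p ∈ U fun γ => gr (∀ a ∈ s, a < γ) := by
  have h1 := h.inter {a // a ∈ s} (fun a γ => gr (a.1 < γ)) p
    ((lt_aleph0_of_finite _).trans_le hκ) (fun a => h.tail a.1 p)
  exact h.up p _ _ h1 fun q _ γ hγ a ha => hγ ⟨a, ha⟩

/-- the statements decided in the same way as by most points -/
theorem homog (h : Meas κ U) [Nonempty K] (A : K → RO P) (p : P) : p ∈ U fun γ => iv (A γ) (U A) := by
  refine RO.rg fun q _ => ?_
  obtain ⟨r, hr, h1 | h1⟩ := em (U A) q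
  · refine ⟨r, hr, h.up r _ _ h1 fun u hu γ hγ => mem_iv.2 fun v hv => ?_⟩
    exact ⟨fun _ => RO.dn h1 (hv.trans hu), fun _ => RO.dn hγ hv⟩
  · refine ⟨r, hr, h.up r _ _ ((h.ult r A).2 h1) fun u hu γ hγ => mem_iv.2 fun v hv => ?_⟩
    exact ⟨fun h2 => absurd h2 (hγ v hv), fun h2 => absurd h2 (h1 v (hv.trans hu))⟩

end Meas

/-- Prikry conditions over names -/
structure PQ (U : (K → RO P) → RO P) : Type where
  p : P
  s : Finset K
  A : K → RO P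
  h : p ∈ U A

instance (U : (K → RO P) → RO P) : Preorder (PQ U) where
  le q' q := q'.p ≤ q.p ∧ q.s ⊆ q'.s ∧
    (∀ γ ∈ q'.s, γ ∉ q.s → (∀ δ ∈ q.s, δ < γ) ∧ q'.p ∈ q.A γ) ∧
    ∀ γ, ∀ r ≤ q'.p, r ∈ q'.A γ → r ∈ q.A γ
  le_refl q := ⟨le_rfl, Finset.Subset.refl _, fun γ h h' => absurd h h', fun γ r _ h => h⟩
  le_trans a b c := by
    rintro ⟨h1, h2, h3, h4⟩ ⟨k1, k2, k3, k4⟩
    refine ⟨h1.trans k1, k2.trans h2, fun γ hγ hγ' => ?_, fun γ r hr hrA => ?_⟩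
    · by_cases h : γ ∈ b.s
      · exact ⟨(k3 γ h hγ').1, RO.dn (k3 γ h hγ').2 h1⟩
      · obtain ⟨h5, h6⟩ := h3 γ hγ h
        exact ⟨fun δ hδ => h5 δ (k2 hδ), k4 γ _ h1 h6⟩
    · exact k4 γ r (hr.trans h1) (h4 γ r hr hrA)

section

variable {U : (K → RO P) → RO P}

/-- some condition with first coordinate `p` and stem `s` is in `D` -/
def Ex (D : RO (PQ U)) (s : Finset K) : RO P where
  c := {p | ∀ q ≤ p, ∃ r ≤ q, ∃ A, ∃ h : r ∈ U A, (⟨r, s, A, h⟩ : PQ U) ∈ D}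
  down := fun hp hq r hr => hp r (hr.trans hq)
  reg := fun {p} h q hq => by
    obtain ⟨r, hr, h'⟩ := h q hq
    obtain ⟨r', hr', h''⟩ := h' r le_rfl
    exact ⟨r', hr'.trans hr, h''⟩

theorem mem_Ex {D : RO (PQ U)} {s : Finset K} {p : P} : p ∈ Ex D s ↔
    ∀ q ≤ p, ∃ r ≤ q, ∃ A, ∃ h : r ∈ U A, (⟨r, s, A, h⟩ : PQ U) ∈ D := Iff.rfl

theorem Ex_of_mem {D : RO (PQ U)} {q : PQ U} (h : q ∈ D) : q.p ∈ Ex D q.s := by
  intro r hr
  refine ⟨r, le_rfl, q.A, RO.dn q.h hr, RO.dn h ?_⟩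
  exact ⟨hr, Finset.Subset.refl _, fun γ h h' => absurd h h', fun γ u _ hu => hu⟩

theorem Ex_mono {D D' : RO (PQ U)} {s : Finset K} (h : ∀ q : PQ U, q ∈ D → q ∈ D') {p : P}
    (hp : p ∈ Ex D s) : p ∈ Ex D' s := by
  intro q hq
  obtain ⟨r, hr, A, hA, h1⟩ := hp q hq
  exact ⟨r, hr, A, hA, h _ h1⟩

theorem Ex_and {κ : Cardinal.{0}} (hκ : ℵ₀ ≤ κ) (hU : Meas κ U) {D D' : RO (PQ U)} {s : Finset K}
    {p : P} (hp : p ∈ Ex D s) (hp' : p ∈ Ex D' s) : p ∈ Ex (an D D') s := by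
  intro q hq
  obtain ⟨r, hr, A, hA, h1⟩ := hp q hq
  obtain ⟨r', hr', A', hA', h1'⟩ := hp' r (hr.trans hq)
  refine ⟨r', hr'.trans hr, fun γ => an (A γ) (A' γ), hU.and hκ (RO.dn hA hr') hA', ?_, ?_⟩
  · refine RO.dn h1 ⟨hr', Finset.Subset.refl _, fun γ h h' => absurd h h', fun γ u _ hu => hu.1⟩
  · refine RO.dn h1' ⟨le_rfl, Finset.Subset.refl _, fun γ h h' => absurd h h', fun γ u _ hu => hu.2⟩

/-- two conditions with the same stem and the same first coordinate -/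
theorem Ex_neg_false {κ : Cardinal.{0}} (hκ : ℵ₀ ≤ κ) (hU : Meas κ U) {D : RO (PQ U)}
    {q : PQ U} (h : q ∈ neg D) {p : P} (hp : p ≤ q.p) (h' : p ∈ Ex D q.s) : False := by
  obtain ⟨r, hr, A, hA, h1⟩ := h' p le_rfl
  have h2 : (⟨r, q.s, fun γ => an (A γ) (q.A γ), hU.and hκ hA (RO.dn q.h (hr.trans hp))⟩ : PQ U) ∈ D
      := RO.dn h1 ⟨le_rfl, Finset.Subset.refl _, fun γ h h' => absurd h h', fun γ u _ hu => hu.1⟩
  refine h _ ?_ h2
  exact ⟨hr.trans hp, Finset.Subset.refl _, fun γ h h' => absurd h h', fun γ u _ hu => hu.2⟩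

/-- add a new element to the stem -/
theorem exists_step {κ : Cardinal.{0}} (hκ : ℵ₀ ≤ κ) (hU : Meas κ U) (q : PQ U) (k : K) :
    ∃ q' ≤ q, ∃ γ, k < γ ∧ (∀ a ∈ q.s, a < γ) ∧ q'.s = insert γ q.s := by
  obtain ⟨r, hr, γ, ⟨h1, h2⟩, h3⟩ := hU.proper (hU.and hκ (hU.and hκ q.h (hU.above hκ q.s q.p))
    (hU.tail k q.p))
  refine ⟨⟨r, insert γ q.s, q.A, RO.dn q.h hr⟩, ⟨hr, Finset.subset_insert _ _, ?_, ?_⟩, γ, h3, h2,
    rfl⟩
  · intro δ hδ hδ'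
    have : δ = γ := (Finset.mem_insert.1 hδ).resolve_right hδ'
    subst this
    exact ⟨h2, h1⟩
  · intro _ u _ hu
    exact hu

/-- **Fusion.** -/
theorem fusion {κ : Cardinal.{0}} (hκ : ℵ₀ ≤ κ) [Nonempty K] (hU : Meas κ U) (D : RO (PQ U))
    (s : Finset K) (p : P) (hp : p ∈ U fun γ => Ex D (insert γ s)) : p ∈ Ex D s := by
  classical
  -- names for the sets
  have h1 : ∀ γ : K, ∃ F : K → RO P, (∀ r : P, r ∈ U F) ∧
      ∀ q : P, q ∈ Ex D (insert γ s) → ∃ r ≤ q, ∃ h : r ∈ U F,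
        (⟨r, insert γ s, F, h⟩ : PQ U) ∈ D := by
    intro γ
    have hch : ∀ r : P, ∃ A : K → RO P, (∃ A, ∃ h : r ∈ U A, (⟨r, insert γ s, A, h⟩ : PQ U) ∈ D) →
        ∃ h : r ∈ U A, (⟨r, insert γ s, A, h⟩ : PQ U) ∈ D := by
      intro r
      by_cases h : ∃ A, ∃ h : r ∈ U A, (⟨r, insert γ s, A, h⟩ : PQ U) ∈ D
      · obtain ⟨A, hA⟩ := h
        exact ⟨A, fun _ => hA⟩
      · exact ⟨fun _ => gr True, fun h' => absurd h' h⟩
    choose Φ hΦ using hch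
    obtain ⟨F, hF⟩ := mix {r : P | ∃ A, ∃ h : r ∈ U A, (⟨r, insert γ s, A, h⟩ : PQ U) ∈ D} Φ
    have hF' : ∀ r : P, r ∈ U fun δ => im (U F) (F δ) := by
      intro r
      refine RO.rg fun q _ => ?_
      obtain ⟨r', hr', h2 | h2⟩ := em (U F) q
      · exact ⟨r', hr', hU.up r' F _ h2 fun u hu δ hδ v hv _ => RO.dn hδ hv⟩
      · refine ⟨r', hr', hU.of_forall fun u hu δ v hv h3 => ?_⟩
        exact absurd h3 (h2 v (hv.trans hu))
    refine ⟨fun δ => im (U F) (F δ), hF', fun q hq => ?_⟩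
    obtain ⟨r0, hr0, hr0'⟩ := hq q le_rfl
    obtain ⟨r, hr, a, haD, hra, hloc⟩ := hF q ⟨r0, hr0, hr0'⟩
    obtain ⟨ha1, ha2⟩ := hΦ a haD
    have h3 : r ∈ U F := hU.up r (Φ a) F (RO.dn ha1 hra) fun u hu δ hδ => (hloc δ u hu).2 hδ
    refine ⟨r, hr, hF' r, RO.dn ha2 ⟨hra, Finset.Subset.refl _, fun _ h h' => absurd h h', ?_⟩⟩
    intro δ u hu hδ
    exact (hloc δ u hu).1 (hδ u le_rfl (RO.dn h3 hu))
  choose F hF1 hF2 using h1
  have h2 : p ∈ U fun γ => al fun k : {k // k < γ} => F k.1 γ := hU.diagK hκ fun k => hF1 k p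
  have h3 := hU.and hκ h2 (hU.and hκ hp (hU.above hκ s p))
  intro q hq
  refine ⟨q, le_rfl, _, RO.dn h3 hq, RO.rg fun c hc => ?_⟩
  -- make the stem longer than `s`
  obtain ⟨c', hc', hne⟩ : ∃ c' ≤ c, ¬ c'.s ⊆ s := by
    obtain ⟨c', hc', γ, -, h4, h5⟩ := exists_step hκ hU c (Classical.arbitrary K)
    refine ⟨c', hc', fun h6 => ?_⟩
    rw [h5] at h6
    have h7 : γ ∈ s := h6 (Finset.mem_insert_self _ _)
    have h8 : γ ∈ c.s := hc.2.1 h7
    exact lt_irrefl _ (h4 γ h8)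
  obtain ⟨k1, k2, k3, k4⟩ := hc'.trans hc
  change c'.p ≤ q at k1
  change s ⊆ c'.s at k2
  change ∀ γ ∈ c'.s, γ ∉ s → (∀ δ ∈ s, δ < γ) ∧ _ at k3
  have hne' : (c'.s \ s).Nonempty := by
    rw [Finset.sdiff_nonempty]
    exact hne
  obtain ⟨γ, hγ, hmin⟩ : ∃ γ ∈ c'.s \ s, ∀ δ ∈ c'.s \ s, γ ≤ δ :=
    ⟨(c'.s \ s).min' hne', Finset.min'_mem _ _, fun δ hδ => Finset.min'_le _ _ hδ⟩
  rw [Finset.mem_sdiff] at hγ
  obtain ⟨hγs, -, h5, -⟩ := k3 γ hγ.1 hγ.2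
  obtain ⟨r, hr, h6, h7⟩ := hF2 γ c'.p h5
  have h8 : r ∈ U fun δ => an (c'.A δ) (gr (∀ a ∈ c'.s, a < δ)) :=
    hU.and hκ (RO.dn c'.h hr) (hU.above hκ _ _)
  refine ⟨⟨r, c'.s, _, h8⟩, ?_, RO.dn h7 ?_⟩
  · refine le_trans ?_ hc'
    exact ⟨hr, Finset.Subset.refl _, fun _ h h' => absurd h h', fun _ _ _ h => h.1⟩
  · refine ⟨le_rfl, ?_, ?_, ?_⟩
    · intro δ hδ
      rcases Finset.mem_insert.1 hδ with rfl | hδ
      · exact hγ.1
      · exact k2 hδ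
    · intro δ hδ hδ'
      change δ ∈ c'.s at hδ
      change δ ∉ insert γ s at hδ'
      rw [Finset.mem_insert, not_or] at hδ'
      have hγδ : γ < δ := lt_of_le_of_ne (hmin δ (Finset.mem_sdiff.2 ⟨hδ, hδ'.2⟩))
        (Ne.symm hδ'.1)
      obtain ⟨h9, h10, -⟩ := k3 δ hδ hδ'.2
      refine ⟨fun a ha => ?_, RO.dn (h10 ⟨γ, hγδ⟩) hr⟩
      rcases Finset.mem_insert.1 ha with rfl | ha
      · exact hγδ
      · exact h9 a ha
    · intro δ u hu hδ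
      change u ∈ an (c'.A δ) (gr (∀ a ∈ c'.s, a < δ)) at hδ
      have hγδ : γ < δ := hδ.2 γ hγ.1
      exact (k4 δ u (hu.trans hr) hδ.1).1 ⟨γ, hγδ⟩

/-- **The Prikry property.** -/
theorem prikry {κ : Cardinal.{0}} (hκ : ℵ₀ ≤ κ) [Nonempty K] (hU : Meas κ U) (D : RO (PQ U))
    (s : Finset K) : ∃ A : K → RO P, (∀ p, p ∈ U A) ∧
      ∀ (q : P) (h : q ∈ U A), q ∈ neg (Ex D s) → (⟨q, s, A, h⟩ : PQ U) ∈ neg D := by
  classical
  refine ⟨fun γ => al fun t : {t : Finset K // ∀ a ∈ t, a < γ} =>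
      iv (Ex D (insert γ t.1)) (U fun γ' => Ex D (insert γ' t.1)), fun p =>
      hU.diag (fun t γ => iv (Ex D (insert γ t)) (U fun γ' => Ex D (insert γ' t))) p
      (fun t => hU.homog _ p), fun q h hp c hc hcD => ?_⟩
  obtain ⟨k1, k2, k3, k4⟩ := hc
  change c.p ≤ q at k1
  change s ⊆ c.s at k2
  change ∀ γ ∈ c.s, γ ∉ s → (∀ δ ∈ s, δ < γ) ∧ _ at k3
  have key : ∀ n, ∀ t : Finset K, s ⊆ t → t ⊆ c.s → (t \ s).card = n → c.p ∈ Ex D t →
      c.p ∈ Ex D s := by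
    intro n
    induction n with
    | zero =>
      intro t hst _ hcard ht
      have h2 : t \ s = ∅ := Finset.card_eq_zero.1 hcard
      have h3 : t = s := Finset.Subset.antisymm (Finset.sdiff_eq_empty_iff_subset.1 h2) hst
      rw [← h3]
      exact ht
    | succ n ih =>
      intro t hst htc hcard ht
      have hne : (t \ s).Nonempty := by
        rw [← Finset.card_pos]
        omega
      obtain ⟨γ, hγ, hmax⟩ : ∃ γ ∈ t \ s, ∀ δ ∈ t \ s, δ ≤ γ :=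
        ⟨(t \ s).max' hne, Finset.max'_mem _ _, fun δ hδ => Finset.le_max' _ _ hδ⟩
      rw [Finset.mem_sdiff] at hγ
      obtain ⟨h4, h5⟩ := k3 γ (htc hγ.1) hγ.2
      have h6 : ∀ a ∈ t.erase γ, a < γ := by
        intro a ha
        rw [Finset.mem_erase] at ha
        by_cases has : a ∈ s
        · exact h4 a has
        · exact lt_of_le_of_ne (hmax a (Finset.mem_sdiff.2 ⟨ha.2, has⟩)) ha.1
      have h7 := mem_iv.1 (h5 ⟨t.erase γ, h6⟩) c.p le_rfl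
      simp only [Finset.insert_erase hγ.1] at h7
      have h8 := fusion hκ hU D (t.erase γ) c.p (h7.1 ht)
      refine ih (t.erase γ) ?_ ((Finset.erase_subset _ _).trans htc) ?_ h8
      · intro a ha
        rw [Finset.mem_erase]
        exact ⟨fun h => hγ.2 (h ▸ ha), hst ha⟩
      · have h9 : t.erase γ \ s = (t \ s).erase γ := by
          ext a
          simp only [Finset.mem_sdiff, Finset.mem_erase]
          tauto
        rw [h9, Finset.card_erase_of_mem (Finset.mem_sdiff.2 hγ), hcard]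
        rfl
  exact hp c.p k1 (key _ c.s k2 (Finset.Subset.refl _) rfl (Ex_of_mem hcD))

end

end Pool.Agent.R588.S
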