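import Pool.Agent.Helper669.KDefs

/-!
# Regular truth values and mixing of names
-/

set_option autoImplicit false

namespace Pool.Agent.R588.S

open Cardinal Set Pool.Agent.Helper669.Forcing

universe v

/-- regular truth values: sets of conditions closed downwards and under dense conclusions -/
structure RO (P : Type) [Preorder P] : Type where
  c : Set P
  down : ∀ {p q : P}, p ∈ c → q ≤ p → q ∈ c
  reg : ∀ {p : P}, (∀ q ≤ p, ∃ r ≤ q, r ∈ c) → p ∈ c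

variable {P : Type} [Preorder P]

instance : Membership P (RO P) := ⟨fun φ p => p ∈ φ.c⟩

theorem mem_c {φ : RO P} {p : P} : p ∈ φ.c ↔ p ∈ φ := Iff.rfl

theorem RO.dn {φ : RO P} {p q : P} (h : p ∈ φ) (hq : q ≤ p) : q ∈ φ := φ.down h hq

theorem RO.rg {φ : RO P} {p : P} (h : ∀ q ≤ p, ∃ r ≤ q, r ∈ φ) : p ∈ φ := φ.reg h

theorem RO.eq {φ ψ : RO P} (h : ∀ p, p ∈ φ ↔ p ∈ ψ) : φ = ψ := by
  obtain ⟨a, _, _⟩ := φ
  obtain ⟨b, _, _⟩ := ψ
  have : a = b := Set.ext h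
  subst this
  rfl

/-- negation -/
def neg (φ : RO P) : RO P where
  c := {p | ∀ q ≤ p, q ∉ φ}
  down := fun hp hq r hr => hp r (hr.trans hq)
  reg := fun {p} h q hq hqφ => by
    obtain ⟨r, hr, hr'⟩ := h q hq
    exact hr' r le_rfl (φ.dn hqφ hr)

/-- conjunction of a family -/
def al {ι : Sort v} (φ : ι → RO P) : RO P where
  c := {p | ∀ i, p ∈ φ i}
  down := fun hp hq i => (φ i).dn (hp i) hq
  reg := fun h i => (φ i).rg fun q hq => by
    obtain ⟨r, hr, h'⟩ := h q hq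
    exact ⟨r, hr, h' i⟩

/-- conjunction -/
def an (φ ψ : RO P) : RO P where
  c := {p | p ∈ φ ∧ p ∈ ψ}
  down := fun hp hq => ⟨φ.dn hp.1 hq, ψ.dn hp.2 hq⟩
  reg := fun h => ⟨φ.rg fun q hq => by
    obtain ⟨r, hr, h'⟩ := h q hq
    exact ⟨r, hr, h'.1⟩, ψ.rg fun q hq => by
    obtain ⟨r, hr, h'⟩ := h q hq
    exact ⟨r, hr, h'.2⟩⟩

/-- implication -/
def im (φ ψ : RO P) : RO P where
  c := {p | ∀ q ≤ p, q ∈ φ → q ∈ ψ}
  down := fun hp hq r hr => hp r (hr.trans hq)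
  reg := fun {p} h q hq hqφ => ψ.rg fun r hr => by
    obtain ⟨r', hr', h'⟩ := h r (hr.trans hq)
    exact ⟨r', hr', h' r' le_rfl (φ.dn hqφ (hr'.trans hr))⟩

/-- equivalence -/
def iv (φ ψ : RO P) : RO P := an (im φ ψ) (im ψ φ)

/-- ground model statements -/
def gr (h : Prop) : RO P where
  c := {_p | h}
  down := fun hp _ => hp
  reg := fun {p} h => by
    obtain ⟨r, _, h'⟩ := h p le_rfl
    exact h'

/-- the truth value of the generic filter meeting `N` -/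
def cl (N : Set P) : RO P where
  c := meets N
  down := fun hp hq => down_meets N _ hp _ hq
  reg := fun {p} h q hq => by
    obtain ⟨r, hr, h'⟩ := h q hq
    obtain ⟨r', hr', s, hs, hrs⟩ := h' r le_rfl
    exact ⟨r', hr'.trans hr, s, hs, hrs⟩

theorem mem_neg {φ : RO P} {p : P} : p ∈ neg φ ↔ ∀ q ≤ p, q ∉ φ := Iff.rfl

theorem mem_al {ι : Sort v} {φ : ι → RO P} {p : P} : p ∈ al φ ↔ ∀ i, p ∈ φ i := Iff.rfl

theorem mem_an {φ ψ : RO P} {p : P} : p ∈ an φ ψ ↔ p ∈ φ ∧ p ∈ ψ := Iff.rfl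

theorem mem_im {φ ψ : RO P} {p : P} : p ∈ im φ ψ ↔ ∀ q ≤ p, q ∈ φ → q ∈ ψ := Iff.rfl

theorem mem_iv {φ ψ : RO P} {p : P} : p ∈ iv φ ψ ↔ ∀ q ≤ p, (q ∈ φ ↔ q ∈ ψ) :=
  ⟨fun h q hq => ⟨h.1 q hq, h.2 q hq⟩, fun h => ⟨fun q hq => (h q hq).1, fun q hq => (h q hq).2⟩⟩

theorem mem_gr {h : Prop} {p : P} : p ∈ (gr h : RO P) ↔ h := Iff.rfl

theorem mem_cl {N : Set P} {p : P} : p ∈ cl N ↔ p ∈ meets N := Iff.rfl

theorem meets_c (φ : RO P) : meets φ.c = φ.c := by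
  ext p
  constructor
  · intro h
    refine φ.reg fun q hq => ?_
    obtain ⟨r, hr, s, hs, hrs⟩ := h q hq
    exact ⟨r, hr, φ.down hs hrs⟩
  · intro h
    exact meets_of_mem h

theorem em (φ : RO P) (p : P) : ∃ q ≤ p, q ∈ φ ∨ q ∈ neg φ := by
  by_cases h : ∃ q ≤ p, q ∈ φ
  · obtain ⟨q, hq, h'⟩ := h
    exact ⟨q, hq, Or.inl h'⟩
  · push Not at h
    exact ⟨p, le_rfl, Or.inr h⟩

theorem mem_of_not_neg {φ : RO P} {p : P} (h : ∀ q ≤ p, q ∉ neg φ) : p ∈ φ := by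
  refine φ.rg fun q hq => ?_
  obtain ⟨r, hr, h1 | h1⟩ := em φ q
  · exact ⟨r, hr, h1⟩
  · exact absurd h1 (h r (hr.trans hq))

theorem exists_of_not_neg {φ : RO P} {p : P} (h : p ∉ neg φ) : ∃ q ≤ p, q ∈ φ := by
  rw [mem_neg] at h
  push Not at h
  exact h

theorem exists_neg_of_not {φ : RO P} {p : P} (h : p ∉ φ) : ∃ q ≤ p, q ∈ neg φ := by
  by_contra hcon
  push Not at hcon
  exact h (mem_of_not_neg hcon)

theorem not_both {φ : RO P} {p : P} (h : p ∈ φ) (h' : p ∈ neg φ) : False := h' p le_rfl h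

/-- **Mixing.** -/
theorem mix {Y : Type v} (D : Set P) (Φ : P → Y → RO P) :
    ∃ F : Y → RO P, ∀ q : P, (∃ r ≤ q, r ∈ D) →
      ∃ r ≤ q, ∃ a ∈ D, r ≤ a ∧ ∀ y, ∀ u ≤ r, (u ∈ F y ↔ u ∈ Φ a y) := by
  obtain ⟨M, hM⟩ := zorn_subset
    {M : Set P | M ⊆ D ∧ ∀ a ∈ M, ∀ b ∈ M, ∀ c, c ≤ a → c ≤ b → a = b} (by
      intro C hC hchain
      refine ⟨⋃₀ C, ⟨?_, ?_⟩, fun s hs => Set.subset_sUnion_of_mem hs⟩
      · intro x hx
        obtain ⟨s, hs, hxs⟩ := hx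
        exact (hC hs).1 hxs
      · intro a ha b hb c hca hcb
        obtain ⟨s, hs, has⟩ := ha
        obtain ⟨t, ht, hbt⟩ := hb
        rcases hchain.total hs ht with hst | hst
        · exact (hC ht).2 a (hst has) b hbt c hca hcb
        · exact (hC hs).2 a has b (hst hbt) c hca hcb)
  obtain ⟨⟨hMD, hanti⟩, hmax⟩ := hM
  have hpred : ∀ d ∈ D, ∃ a ∈ M, ∃ r, r ≤ d ∧ r ≤ a := by
    intro d hdD
    by_contra hcon
    push Not at hcon
    have hins : insert d M ∈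
        {M : Set P | M ⊆ D ∧ ∀ a ∈ M, ∀ b ∈ M, ∀ c, c ≤ a → c ≤ b → a = b} := by
      refine ⟨Set.insert_subset hdD hMD, ?_⟩
      intro a ha b hb c hca hcb
      rcases Set.mem_insert_iff.1 ha with ha' | ha'
      · rcases Set.mem_insert_iff.1 hb with hb' | hb'
        · rw [ha', hb']
        · rw [ha'] at hca
          exact absurd hcb (hcon b hb' c hca)
      · rcases Set.mem_insert_iff.1 hb with hb' | hb'
        · rw [hb'] at hcb
          exact absurd hca (hcon a ha' c hcb)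
        · exact hanti a ha' b hb' c hca hcb
    have hdM : d ∈ M := hmax hins (Set.subset_insert d M) (Set.mem_insert d M)
    exact hcon d hdM d le_rfl le_rfl
  refine ⟨fun y => ⟨{u | ∀ a ∈ M, ∀ v ≤ u, v ≤ a → v ∈ Φ a y}, ?_, ?_⟩, ?_⟩
  · intro p q hp hq a ha v hv hva
    exact hp a ha v (hv.trans hq) hva
  · intro p h a ha v hv hva
    refine (Φ a y).rg fun w hw => ?_
    obtain ⟨r, hr, h'⟩ := h w (hw.trans hv)
    exact ⟨r, hr, h' a ha r le_rfl (hr.trans (hw.trans hva))⟩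
  · rintro q ⟨d, hdq, hdD⟩
    obtain ⟨a, haM, r, hrd, hra⟩ := hpred d hdD
    refine ⟨r, hrd.trans hdq, a, hMD haM, hra, fun y u hu => ⟨fun h => ?_, fun h => ?_⟩⟩
    · exact h a haM u le_rfl (hu.trans hra)
    · intro b hbM v hv hvb
      have : a = b := hanti a haM b hbM v (hv.trans (hu.trans hra)) hvb
      subst this
      exact (Φ a y).dn h hv

end Pool.Agent.R588.S
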