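import Pool.Agent.R588.S.UU
import Pool.Agent.R588.S.Core

/-!
# The task principle
-/

set_option autoImplicit false

namespace Pool.Agent.R588.S

open Cardinal Set Pool.Agent.Helper669.Forcing Pool.Agent.Helper669.K

section

variable {P : Type} [Preorder P] {N : Type} [LinearOrder N]

/-- `w` is the least element with `E w` -/
def lst (E : N → RO P) (w : N) : RO P := an (E w) (al fun w' : {w' // w' < w} => neg (E w'.1))

theorem lst_total [WellFoundedLT N] {E : N → RO P} (h : ∀ p : P, ∃ q ≤ p, ∃ w, q ∈ E w) (p : P) :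
    ∃ q ≤ p, ∃ w, q ∈ lst E w := by
  have hne : ({w | ∃ q ≤ p, q ∈ E w} : Set N).Nonempty := by
    obtain ⟨q, hq, w, hw⟩ := h p
    exact ⟨w, q, hq, hw⟩
  obtain ⟨w, ⟨q, hq, hw⟩, hmin⟩ := WellFounded.has_min (wellFounded_lt (α := N)) _ hne
  refine ⟨q, hq, w, hw, fun w' r hr hrw => hmin w'.1 ⟨r, hr.trans hq, hrw⟩ w'.2⟩

theorem lst_uniq {E : N → RO P} {w w' : N} {p : P} (h : p ∈ lst E w) (h' : p ∈ lst E w') :
    w = w' := by
  rcases lt_trichotomy w w' with h1 | h1 | h1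
  · exact absurd h.1 (h'.2 ⟨w, h1⟩ p le_rfl)
  · exact h1
  · exact absurd h'.1 (h.2 ⟨w', h1⟩ p le_rfl)

theorem lst_congr {E E' : N → RO P} {w : N} {p : P} (h : ∀ w, ∀ q ≤ p, (q ∈ E w ↔ q ∈ E' w))
    (hp : p ∈ lst E w) : p ∈ lst E' w :=
  ⟨(h w p le_rfl).1 hp.1, fun w' q hq hq' => hp.2 w' q hq ((h w'.1 q hq).2 hq')⟩

end

variable {κ : Cardinal.{0}} {C K N M : Type}

theorem task_of (hκ : κ.IsRegular) (h2 : ∀ μ < κ, 2 ^ μ < κ) [LinearOrder M] [LinearOrder K]
    (hK : κ ≤ #K) [Nonempty K] [LinearOrder N]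
    {rk : C → M} {st : C → Finset K → N → N → RO (Co κ (C × Finset K × N))} (hst : StSys rk st)
    (huniv : ∀ R : Finset K → N → N → RO (Co κ (C × Finset K × N)), (∀ t z p, p ∈ R t z z) →
      ∃ c, ∀ t z w, st c t z w = lst (R t z) w)
    {V : (PK κ (XX C K N (K → RO (Co κ (C × Finset K × N)))) → RO (Co κ (C × Finset K × N))) →
      RO (Co κ (C × Finset K × N))} (hV : NF κ _ V)
    {H : PK κ (XX C K N (K → RO (Co κ (C × Finset K × N)))) → Co κ (C × Finset K × N) →
      Co κ (C × Finset K × N)} (hH : ∀ x k0 g, GoodAt x k0 → g.supp ⊆ dm x →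
        HSpec st x k0 g (H x g))
    (hgood : ∀ p : Co κ (C × Finset K × N), p ∈ V fun x => gr (∃ k0, GoodAt x k0)) :
    Task (fun A : K → RO (Co κ (C × Finset K × N)) => V (str H A)) N := by
  classical
  intro R hrefl hsymm htrans hinj
  have hκ0 := hκ.aleph0_le
  have hU := meas_of hκ hV hH hgood
  obtain ⟨c, hc⟩ := huniv R hrefl
  -- the truth values
  let b : Finset K → N → RO (Co κ (C × Finset K × N)) := fun t z =>
    al fun w => im (st c t z w) (bit hκ0 (c, t, w) true)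
  have hb1 : ∀ t z w p, p ∈ st c t z w → p.f (c, t, w) = some true → p ∈ b t z := by
    intro t z w p hp hp' w' q hq hqw
    have h1 : w' = w := hst.uniq _ _ _ _ _ q hqw (RO.dn hp hq)
    subst h1
    exact hq _ _ hp'
  have hb2 : ∀ t z w p, p ∈ st c t z w → p.f (c, t, w) = some false → p ∈ neg (b t z) := by
    intro t z w p hp hp' q hq hqb
    have h1 : q.f (c, t, w) = some true := hqb w q le_rfl (RO.dn hp hq)
    rw [hq _ _ hp'] at h1
    simp at h1
  have hiv : ∀ t z t' z' w w' p i, p ∈ st c t z w → p ∈ st c t' z' w' → p.f (c, t, w) = some i →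
      p.f (c, t', w') = some i → p ∈ iv (b t z) (b t' z') := by
    intro t z t' z' w w' p i hp hp' hi hi'
    refine mem_iv.2 fun q hq => ?_
    cases i with
    | true =>
      exact ⟨fun _ => RO.dn (hb1 _ _ _ _ hp' hi') hq, fun _ => RO.dn (hb1 _ _ _ _ hp hi) hq⟩
    | false =>
      exact ⟨fun h => absurd h (hb2 _ _ _ _ hp hi q hq),
        fun h => absurd h (hb2 _ _ _ _ hp' hi' q hq)⟩
  have hcong : ∀ t z z' w p, p ∈ R t z z' → p ∈ st c t z w → p ∈ st c t z' w := by
    intro t z z' w p hR hp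
    rw [hc] at hp ⊢
    refine lst_congr (fun w q hq => ?_) hp
    exact ⟨fun h => htrans t z' z w q (hsymm _ _ _ _ (RO.dn hR hq)) h,
      fun h => htrans t z z' w q (RO.dn hR hq) h⟩
  have hrep : ∀ t z w p, p ∈ st c t z w → p ∈ R t z w := by
    intro t z w p hp
    rw [hc] at hp
    exact hp.1
  refine ⟨b, ?_, ?_, ?_⟩
  · -- invariance
    intro t z z' p hp
    refine mem_iv.2 fun q hq => ⟨fun h w r hr hrw => ?_, fun h w r hr hrw => ?_⟩
    · exact h w r hr (hcong t z' z w r (hsymm _ _ _ _ (RO.dn hp (hr.trans hq))) hrw)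
    · exact h w r hr (hcong t z z' w r (RO.dn hp (hr.trans hq)) hrw)
  · -- coherence
    intro t z p
    refine mem_of_not_neg fun p1 _ hp1 => ?_
    rw [← hU.ult] at hp1
    obtain ⟨p2, hp2, w₀, hw₀⟩ := hst.total c t z p1
    obtain ⟨p3, hp3, hp3d⟩ := exists_dom hκ0 p2 {(c, t, w₀)} ((lt_aleph0_of_finite _).trans_le hκ0)
    obtain ⟨i, hi⟩ := Co.mem_supp.1 (hp3d (Set.mem_singleton _))
    have g1 : p3 ∈ V (str H fun γ => neg (iv (b (insert γ t) z) (b t z))) :=
      RO.dn hp1 (hp3.trans hp2)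
    have g2 : ∀ z₁, p3 ∈ V (str H fun γ => im (neg (R t z z₁)) (neg (R (insert γ t) z z₁))) := by
      intro z₁
      refine RO.rg fun q _ => ?_
      obtain ⟨r, hr, h1 | h1⟩ := em (R t z z₁) q
      · refine ⟨r, hr, hU.of_forall fun u hu γ v hv h3 => ?_⟩
        exact absurd (RO.dn h1 (hv.trans hu)) (h3 v le_rfl)
      · refine ⟨r, hr, hU.up r _ _ (hinj t z z₁ r h1) fun u hu γ hγ v hv _ => RO.dn hγ hv⟩
    have g3 := hV.normal (fun a x => match a with
      | XX.n z₁ => str H (fun γ => im (neg (R t z z₁)) (neg (R (insert γ t) z z₁))) x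
      | _ => gr True) p3 (by
        intro a
        cases a with
        | t t => exact hV.gmono (hV.fine (XX.t ∅) p3) fun _ _ => trivial
        | c c => exact hV.gmono (hV.fine (XX.t ∅) p3) fun _ _ => trivial
        | k k => exact hV.gmono (hV.fine (XX.t ∅) p3) fun _ _ => trivial
        | n n => exact g2 n
        | a a => exact hV.gmono (hV.fine (XX.t ∅) p3) fun _ _ => trivial)
    obtain ⟨q, hq, x, ⟨⟨x1, x2⟩, ⟨x3, x4⟩, x5⟩, x6, x7⟩ := hV.proper
      (hV.and hκ0 (hV.and hκ0 (hV.and hκ0 g1 g3) (hV.and hκ0 (hV.and hκ0 (hgood p3)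
        (supp_most hκ0 hV p3 p3)) (hV.fine (XX.c c) p3))) (hV.and hκ0 (hV.fine (XX.t t) p3)
        (hV.fine (XX.n z) p3)))
    obtain ⟨k0, hk0⟩ : ∃ k0, GoodAt x k0 := x3
    replace x4 : p3.supp ⊆ dm x := x4
    replace x5 : XX.c c ∈ x.1 := x5
    replace x6 : XX.t t ∈ x.1 := x6
    replace x7 : XX.n z ∈ x.1 := x7
    obtain ⟨r, hr, hd⟩ := exists_dom hκ0 q (dm x) (small_dm hκ0 x)
    obtain ⟨k1, -, k3⟩ := hH x k0 (rs (dm x) r) hk0 rs_supp
    have hgp : rs (dm x) r ≤ p3 := rs_le (hr.trans hq) x4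
    have hhp : H x (rs (dm x) r) ≤ p3 := k1.trans hgp
    obtain ⟨w, z₁, w₁, m1, m2, m3, m4, m5⟩ := k3 c x5 t x6 z x7
    have n1 : H x (rs (dm x) r) ∈ neg (iv (b (insert k0 t) z) (b t z)) := x1 r hr hd k0 hk0
    have n2 : H x (rs (dm x) r) ∈ im (neg (R t z z₁)) (neg (R (insert k0 t) z z₁)) :=
      x2 ⟨XX.n z₁, m1⟩ r hr hd k0 hk0
    have n3 : H x (rs (dm x) r) ∈ R t z z₁ := by
      refine mem_of_not_neg fun u hu hun => ?_
      refine n2 u hu hun u le_rfl ?_
      exact htrans _ _ _ _ _ (RO.dn (hrep _ _ _ _ m2) hu)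
        (hsymm _ _ _ _ (RO.dn (hrep _ _ _ _ m3) hu))
    have n4 : w₁ = w₀ := hst.uniq c t z w₁ w₀ _ (hcong t z₁ z w₁ _ (hsymm _ _ _ _ n3) m4)
      (RO.dn hw₀ (hhp.trans hp3))
    subst n4
    have n5 := m5 i (hgp _ _ hi)
    exact not_both (hiv _ _ _ _ _ _ _ i m2 (RO.dn hw₀ (hhp.trans hp3)) n5 (hhp _ _ hi)) n1
  · -- genericity
    intro s z p hz
    have key : ∃ p2 ≤ p, ∃ ξ w, p2 ∈ st c s (z ξ) w ∧ p2.f (c, s, w) = none := by
      -- many indices
      have hE : #{w : N | p.f (c, s, w) ≠ none} < κ :=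
        small_pre (x := p.supp) p.small (f := fun w => (c, s, w)) (fun a b h => by
          simp only [Prod.mk.injEq, true_and] at h
          exact h)
      have hJ : #(Set {w : N | p.f (c, s, w) ≠ none}) < κ := by
        rw [Cardinal.mk_set]
        exact h2 _ hE
      obtain ⟨ι⟩ : Nonempty (Set {w : N | p.f (c, s, w) ≠ none} ↪ K) := by
        rw [← Cardinal.le_def]
        exact hJ.le.trans hK
      obtain ⟨q1, hq1, hq1d⟩ := exists_forall_mem hκ0 (dirClosed_Co hκ) hJ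
        (fun j => {r : Co κ (C × Finset K × N) | ∃ w, r ∈ st c s (z (ι j)) w})
        (by
          rintro x p ⟨w, hw⟩ q hq
          exact ⟨w, RO.dn hw hq⟩)
        (by
          intro x p
          obtain ⟨q, hq, w, hw⟩ := hst.total c s (z (ι x)) p
          exact ⟨q, hq, w, hw⟩) p
      obtain ⟨q2, hq2a, hq2b⟩ := exists_splice hκ0 {l : C × Finset K × N | rk l.1 < rk c} q1 p
      have hq2 : q2 ≤ p := by
        intro l b hb
        by_cases hl : rk l.1 < rk c
        · rw [hq2a l hl]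
          exact hq1 l b hb
        · rw [hq2b l hl]
          exact hb
      choose w hw using hq1d
      have hw2 : ∀ j, q2 ∈ st c s (z (ι j)) (w j) := fun j =>
        hst.rank _ _ _ _ q1 q2 (fun l hl => hq2a l hl) (hw j)
      by_cases hex : ∃ j, p.f (c, s, w j) = none
      · obtain ⟨j, hj⟩ := hex
        refine ⟨q2, hq2, ι j, w j, hw2 j, ?_⟩
        rw [hq2b _ (lt_irrefl _)]
        exact hj
      · exfalso
        push Not at hex
        have hwinj : Function.Injective w := by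
          intro j j' hjj
          by_contra hne
          have hne' : ι j ≠ ι j' := fun h => hne (ι.injective h)
          refine hz _ _ hne' q2 hq2 ?_
          have h5 := hrep _ _ _ _ (hw2 j)
          have h6 := hrep _ _ _ _ (hw2 j')
          rw [← hjj] at h6
          exact htrans _ _ _ _ _ h5 (hsymm _ _ _ _ h6)
        have h5 : #(Set {w : N | p.f (c, s, w) ≠ none}) ≤ #{w : N | p.f (c, s, w) ≠ none} := by
          refine Cardinal.mk_le_of_injective (f := fun j =>
            (⟨w j, hex j⟩ : {w : N | p.f (c, s, w) ≠ none})) ?_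
          intro j j' hjj
          exact hwinj (congrArg Subtype.val hjj)
        rw [Cardinal.mk_set] at h5
        exact absurd h5 (not_le.2 (Cardinal.cantor _))
    obtain ⟨p2, hp2, ξ, w, hw, hn⟩ := key
    constructor
    · obtain ⟨r, hr, hr'⟩ := exists_set hκ0 p2 (c, s, w) hn true
      exact ⟨r, hr.trans hp2, ξ, hb1 _ _ _ _ (RO.dn hw hr) hr'⟩
    · obtain ⟨r, hr, hr'⟩ := exists_set hκ0 p2 (c, s, w) hn false
      exact ⟨r, hr.trans hp2, ξ, hb2 _ _ _ _ (RO.dn hw hr) hr'⟩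

end Pool.Agent.R588.S
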