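import Pool.Agent.R588.S.PN
import Pool.Agent.R588.S.NF
import Pool.Agent.R588.S.HH

/-!
# The measure given by master conditions
-/

set_option autoImplicit false

namespace Pool.Agent.R588.S

open Cardinal Set Pool.Agent.Helper669.Forcing Pool.Agent.Helper669.K

variable {κ : Cardinal.{0}} {C K N M : Type}

/-- the restriction of a condition to a set of coordinates -/
noncomputable def rs {L : Type} (Z : Set L) (p : Co κ L) : Co κ L :=
  open Classical in
  Co.mk' (fun l => if l ∈ Z then p.f l else none) p.supp p.small (by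
    intro l hl
    by_cases h : l ∈ Z
    · rw [if_pos h] at hl
      exact hl
    · rw [if_neg h] at hl
      exact absurd rfl hl)

theorem rs_pos {L : Type} {Z : Set L} {p : Co κ L} {l : L} (h : l ∈ Z) : (rs Z p).f l = p.f l :=
  if_pos h

theorem rs_neg {L : Type} {Z : Set L} {p : Co κ L} {l : L} (h : l ∉ Z) : (rs Z p).f l = none :=
  if_neg h

theorem rs_eq {L : Type} {Z : Set L} {p q : Co κ L} (h : q ≤ p) (hZ : Z ⊆ p.supp) :
    rs Z q = rs Z p := by
  apply Co.ext
  funext l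
  by_cases hl : l ∈ Z
  · rw [rs_pos hl, rs_pos hl]
    exact Co.eq_of_le h (hZ hl)
  · rw [rs_neg hl, rs_neg hl]

theorem rs_le {L : Type} {Z : Set L} {p q : Co κ L} (h : q ≤ p) (hZ : p.supp ⊆ Z) :
    rs Z q ≤ p := by
  intro l b hb
  have hl : l ∈ p.supp := Co.mem_supp.2 ⟨b, hb⟩
  rw [rs_pos (hZ hl)]
  exact h l b hb

theorem le_rs {L : Type} {Z : Set L} {p : Co κ L} : p ≤ rs Z p := by
  intro l b hb
  by_cases hl : l ∈ Z
  · rwa [rs_pos hl] at hb
  · rw [rs_neg hl] at hb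
    exact absurd hb (by simp)

theorem rs_supp {L : Type} {Z : Set L} {p : Co κ L} : (rs Z p).supp ⊆ Z := by
  intro l hl
  by_contra h
  exact hl (rs_neg h)

section

variable {B : Type}

/-- the coordinates in `x` -/
def dm (x : PK κ (XX C K N B)) : Set (C × Finset K × N) :=
  {l | XX.c l.1 ∈ x.1 ∧ XX.t l.2.1 ∈ x.1 ∧ XX.n l.2.2 ∈ x.1}

theorem small_pre {X Y : Type} {x : Set Y} (hx : #x < κ) {f : X → Y} (hf : Function.Injective f) :
    #{a | f a ∈ x} < κ := by
  refine lt_of_le_of_lt ?_ hx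
  refine Cardinal.mk_le_of_injective (f := fun a : {a | f a ∈ x} => (⟨f a.1, a.2⟩ : x)) ?_
  intro a b hab
  exact Subtype.ext (hf (congrArg Subtype.val hab))

theorem small_dm (hκ : ℵ₀ ≤ κ) (x : PK κ (XX C K N B)) : #(dm x) < κ := by
  have h1 : #{c : C | XX.c c ∈ x.1} < κ := small_pre x.2 (fun a b h => by injection h)
  have h2 : #{t : Finset K | XX.t t ∈ x.1} < κ := small_pre x.2 (fun a b h => by injection h)
  have h3 : #{n : N | XX.n n ∈ x.1} < κ := small_pre x.2 (fun a b h => by injection h)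
  have h4 : #({c : C | XX.c c ∈ x.1} × {t : Finset K | XX.t t ∈ x.1} × {n : N | XX.n n ∈ x.1})
      < κ := by
    simp only [Cardinal.mk_prod, Cardinal.lift_id]
    exact Cardinal.mul_lt_of_lt hκ h1 (Cardinal.mul_lt_of_lt hκ h2 h3)
  refine lt_of_le_of_lt ?_ h4
  refine Cardinal.mk_le_of_injective (f := fun l : dm x =>
    ((⟨l.1.1, l.2.1⟩, ⟨l.1.2.1, l.2.2.1⟩, ⟨l.1.2.2, l.2.2.2⟩) :
      {c : C | XX.c c ∈ x.1} × {t : Finset K | XX.t t ∈ x.1} × {n : N | XX.n n ∈ x.1})) ?_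
  rintro ⟨⟨a, b, c⟩, h⟩ ⟨⟨a', b', c'⟩, h'⟩ heq
  simp only [Prod.mk.injEq, Subtype.mk.injEq] at heq
  obtain ⟨h5, h6, h7⟩ := heq
  subst h5
  subst h6
  subst h7
  rfl

end

/-- the properties of the master condition for `x` and `g` -/
def HSpec [LinearOrder K] (st : C → Finset K → N → N → RO (Co κ (C × Finset K × N)))
    (x : PK κ (XX C K N (K → RO (Co κ (C × Finset K × N))))) (k0 : K)
    (g h : Co κ (C × Finset K × N)) : Prop :=
  h ≤ g ∧ (∀ A, XX.a A ∈ x.1 → h ∈ A k0 ∨ h ∈ neg (A k0)) ∧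
    ∀ c, XX.c c ∈ x.1 → ∀ t, XX.t t ∈ x.1 → ∀ z, XX.n z ∈ x.1 → ∃ w z₁ w₁, XX.n z₁ ∈ x.1 ∧
      h ∈ st c (insert k0 t) z w ∧ h ∈ st c (insert k0 t) z₁ w ∧ h ∈ st c t z₁ w₁ ∧
      ∀ i, g.f (c, t, w₁) = some i → h.f (c, insert k0 t, w) = some i

theorem exists_H (hκ : κ.IsRegular) [LinearOrder M] [WellFoundedLT M] [LinearOrder K]
    {rk : C → M} {st : C → Finset K → N → N → RO (Co κ (C × Finset K × N))} (hst : StSys rk st) :
    ∃ H : PK κ (XX C K N (K → RO (Co κ (C × Finset K × N)))) → Co κ (C × Finset K × N) →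
      Co κ (C × Finset K × N), ∀ x k0 g, GoodAt x k0 → g.supp ⊆ dm x → HSpec st x k0 g (H x g) := by
  classical
  have h1 : ∀ (x : PK κ (XX C K N (K → RO (Co κ (C × Finset K × N)))))
      (g : Co κ (C × Finset K × N)), ∃ h, ∀ k0, GoodAt x k0 → g.supp ⊆ dm x → HSpec st x k0 g h := by
    intro x g
    by_cases hx : (∃ k0, GoodAt x k0) ∧ g.supp ⊆ dm x
    · obtain ⟨⟨k0, hk0⟩, hg⟩ := hx
      obtain ⟨h, hh1, hh2, hh3⟩ := exists_master hκ hst {c : C | XX.c c ∈ x.1}
        {t : Finset K | XX.t t ∈ x.1} {n : N | XX.n n ∈ x.1}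
        (small_pre x.2 (fun a b h => by injection h)) (small_pre x.2 (fun a b h => by injection h))
        (small_pre x.2 (fun a b h => by injection h)) k0 (fun t ht => (hk0.2 t).1 ht)
        ((fun A : K → RO (Co κ (C × Finset K × N)) => A k0) '' {A | XX.a A ∈ x.1})
        (Cardinal.mk_image_le.trans_lt (small_pre x.2 (fun a b h => by injection h))) g
        (fun l hl => hg hl)
      have huniq : ∀ k1, GoodAt x k1 → k1 = k0 := by
        intro k1 hk1
        rcases lt_trichotomy k1 k0 with h | h | h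
        · exact absurd ((hk1.1 k1).1 ((hk0.1 k1).2 h)) (lt_irrefl _)
        · exact h
        · exact absurd ((hk0.1 k0).1 ((hk1.1 k0).2 h)) (lt_irrefl _)
      refine ⟨h, fun k1 hk1 _ => ?_⟩
      rw [huniq k1 hk1]
      refine ⟨hh1, fun A hA => hh2 _ ⟨A, hA, rfl⟩, fun c hc t ht z hz => ?_⟩
      obtain ⟨w, z₁, w₁, h2⟩ := hh3 c hc t ht z hz
      exact ⟨w, z₁, w₁, h2⟩
    · exact ⟨g, fun k0 hk0 hg => absurd ⟨⟨k0, hk0⟩, hg⟩ hx⟩
  choose H hH using h1
  exact ⟨H, fun x k0 g h1 h2 => hH x g k0 h1 h2⟩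

section

variable [LinearOrder K]

/-- the truth value, for the ultrafilter on `PK κ X`, of the master condition forcing `κ_x ∈ A` -/
def str (H : PK κ (XX C K N (K → RO (Co κ (C × Finset K × N)))) → Co κ (C × Finset K × N) →
      Co κ (C × Finset K × N)) (A : K → RO (Co κ (C × Finset K × N)))
    (x : PK κ (XX C K N (K → RO (Co κ (C × Finset K × N))))) : RO (Co κ (C × Finset K × N)) where
  c := {p | ∀ q ≤ p, dm x ⊆ q.supp → ∀ k0, GoodAt x k0 → H x (rs (dm x) q) ∈ A k0}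
  down := fun hp hq r hr => hp r (hr.trans hq)
  reg := fun {p} h q hq hd k0 hk0 => by
    obtain ⟨r, hr, h'⟩ := h q hq
    have h1 := h' r le_rfl (hd.trans (Co.supp_mono hr)) k0 hk0
    rwa [rs_eq hr hd] at h1

theorem mem_str {H : PK κ (XX C K N (K → RO (Co κ (C × Finset K × N)))) →
      Co κ (C × Finset K × N) → Co κ (C × Finset K × N)} {A : K → RO (Co κ (C × Finset K × N))}
    {x : PK κ (XX C K N (K → RO (Co κ (C × Finset K × N))))} {p : Co κ (C × Finset K × N)} :
    p ∈ str H A x ↔ ∀ q ≤ p, dm x ⊆ q.supp → ∀ k0, GoodAt x k0 →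
      H x (rs (dm x) q) ∈ A k0 := Iff.rfl

variable {V : (PK κ (XX C K N (K → RO (Co κ (C × Finset K × N)))) → RO (Co κ (C × Finset K × N))) →
    RO (Co κ (C × Finset K × N))}

theorem supp_most (hκ : ℵ₀ ≤ κ) (hV : NF κ _ V) (p p' : Co κ (C × Finset K × N)) :
    p' ∈ V fun x => gr (p.supp ⊆ dm x) := by
  refine hV.gmono (hV.ginter (J := p.supp) p.small (A := fun l x => l.1 ∈ dm x) ?_)
    fun x hx l hl => hx ⟨l, hl⟩
  intro l
  refine hV.gmono (hV.gand hκ (hV.fine (XX.c l.1.1) p')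
    (hV.gand hκ (hV.fine (XX.t l.1.2.1) p') (hV.fine (XX.n l.1.2.2) p'))) fun x hx => hx

theorem meas_of (hκ : κ.IsRegular) (hV : NF κ _ V)
    {st : C → Finset K → N → N → RO (Co κ (C × Finset K × N))}
    {H : PK κ (XX C K N (K → RO (Co κ (C × Finset K × N)))) → Co κ (C × Finset K × N) →
      Co κ (C × Finset K × N)} (hH : ∀ x k0 g, GoodAt x k0 → g.supp ⊆ dm x →
        HSpec st x k0 g (H x g))
    (hgood : ∀ p : Co κ (C × Finset K × N), p ∈ V fun x => gr (∃ k0, GoodAt x k0)) :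
    Meas κ (fun A : K → RO (Co κ (C × Finset K × N)) => V (str H A)) where
  up := by
    intro p A B hA hAB
    have hκ0 := hκ.aleph0_le
    refine hV.up p _ _ (hV.and hκ0 hA (supp_most hκ0 hV p p)) ?_
    rintro q hq x ⟨hx1, hx2⟩ r hr hd k0 hk0
    have h1 := hx1 r hr hd k0 hk0
    have h2 : H x (rs (dm x) r) ≤ p := (hH x k0 _ hk0 rs_supp).1.trans (rs_le (hr.trans hq) hx2)
    exact hAB _ h2 k0 h1
  ult := by
    intro p A
    have hκ0 := hκ.aleph0_le
    rw [← hV.ult]
    constructor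
    · intro h
      refine hV.up p _ _ (hV.and hκ0 h (hgood p)) ?_
      rintro q hq x ⟨hx1, k0, hk0⟩ r hr hr2
      obtain ⟨r', hr', hd⟩ := exists_dom hκ0 r (dm x) (small_dm hκ0 x)
      exact not_both (hr2 r' hr' hd k0 hk0) (hx1 r' (hr'.trans hr) hd k0 hk0)
    · intro h
      refine hV.up p _ _ (hV.and hκ0 h (hV.fine (XX.a A) p)) ?_
      rintro q hq x ⟨hx1, hx2⟩ r hr hd k0 hk0
      rcases (hH x k0 (rs (dm x) r) hk0 rs_supp).2.1 A hx2 with h1 | h1
      · exfalso
        refine hx1 r hr fun r' hr' hd' k1 hk1 => ?_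
        rw [rs_eq hr' hd]
        have h2 : k1 = k0 := by
          rcases lt_trichotomy k1 k0 with h | h | h
          · exact absurd ((hk1.1 k1).1 ((hk0.1 k1).2 h)) (lt_irrefl _)
          · exact h
          · exact absurd ((hk0.1 k0).1 ((hk1.1 k0).2 h)) (lt_irrefl _)
        rw [h2]
        exact h1
      · exact h1
  inter := by
    intro J A p hJ hA
    refine hV.up p _ _ (hV.inter J (fun j => str H (A j)) p hJ hA) ?_
    intro q _ x hx r hr hd k0 hk0 j
    exact hx j r hr hd k0 hk0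
  diag := by
    intro A p hA
    have h1 := hV.normal (fun a x => match a with
      | XX.t t => str H (A t) x
      | _ => gr True) p (by
        intro a
        cases a with
        | t t => exact hA t
        | c c => exact hV.gmono (hV.fine (XX.t ∅) p) fun _ _ => trivial
        | k k => exact hV.gmono (hV.fine (XX.t ∅) p) fun _ _ => trivial
        | n n => exact hV.gmono (hV.fine (XX.t ∅) p) fun _ _ => trivial
        | a a => exact hV.gmono (hV.fine (XX.t ∅) p) fun _ _ => trivial)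
    refine hV.up p _ _ h1 ?_
    intro q _ x hx r hr hd k0 hk0 t
    exact hx ⟨XX.t t.1, (hk0.2 t.1).2 t.2⟩ r hr hd k0 hk0
  tail := by
    intro k p
    refine hV.up p _ _ (hV.fine (XX.k k) p) ?_
    intro q _ x hx r _ _ k0 hk0
    exact (hk0.1 k).1 hx

end

end Pool.Agent.R588.S
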